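import Pool.Graph.R_seed8.H411R2.WSK.Kempe

/-!
# The `m × n` periodic kagome lattice: 3-colourings as functions, Kempe changes, the sign
-/

set_option autoImplicit false

namespace Pool.Agent.KS6_67.Kag

open Pool.Agent.H411R2.WSK

/-- the unit cells -/
abbrev X (m n : ℕ) := ZMod m × ZMod n

/-- The `m × n` periodic honeycomb graph: `Sum.inl x` is the vertex `(x, A)` and `Sum.inr x` is the
vertex `(x, B)`; `(x, A)` is joined to `(x, B)`, `(x - e₁, B)` and `(x - e₂, B)`. -/
def honeycomb (m n : ℕ) : SimpleGraph (X m n ⊕ X m n) :=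
  SimpleGraph.fromRel fun u v => ∃ x : X m n, u = Sum.inl x ∧
    (v = Sum.inr x ∨ v = Sum.inr (x - (1, 0)) ∨ v = Sum.inr (x - (0, 1)))

/-- The `m × n` periodic kagome lattice: the line graph of the periodic honeycomb graph. -/
def kagome (m n : ℕ) : SimpleGraph (honeycomb m n).edgeSet := (honeycomb m n).lineGraph

/-- the three directions of the edges of the honeycomb graph -/
def d {m n : ℕ} (t : Fin 3) : X m n :=
  match t with
  | 0 => (0, 0)
  | 1 => (1, 0)
  | 2 => (0, 1)

variable {m n : ℕ}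

theorem adj_e (x : X m n) (t : Fin 3) : (honeycomb m n).Adj (Sum.inl x) (Sum.inr (x - d t)) := by
  unfold honeycomb
  rw [SimpleGraph.fromRel_adj]
  refine ⟨by simp, Or.inl ⟨x, rfl, ?_⟩⟩
  fin_cases t
  · left; simp [d]
  · right; left; simp [d]
  · right; right; simp [d]

/-- the edge of direction `t` at the vertex `(x, A)` -/
def e (x : X m n) (t : Fin 3) : (honeycomb m n).edgeSet :=
  ⟨s(Sum.inl x, Sum.inr (x - d t)), adj_e x t⟩

theorem e_surj (a : (honeycomb m n).edgeSet) : ∃ x t, e x t = a := by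
  obtain ⟨a, ha⟩ := a
  induction a using Sym2.ind with
  | _ u v =>
    rw [SimpleGraph.mem_edgeSet] at ha
    unfold honeycomb at ha
    rw [SimpleGraph.fromRel_adj] at ha
    obtain ⟨-, h | h⟩ := ha
    · obtain ⟨x, rfl, rfl | rfl | rfl⟩ := h
      · exact ⟨x, 0, by simp [e, d]⟩
      · exact ⟨x, 1, by simp [e, d]⟩
      · exact ⟨x, 2, by simp [e, d]⟩
    · obtain ⟨x, rfl, rfl | rfl | rfl⟩ := h
      · exact ⟨x, 0, by simp [e, d, Sym2.eq_swap]⟩
      · exact ⟨x, 1, by simp [e, d, Sym2.eq_swap]⟩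
      · exact ⟨x, 2, by simp [e, d, Sym2.eq_swap]⟩

theorem d_inj (hm : 2 ≤ m) (hn : 2 ≤ n) : Function.Injective (d : Fin 3 → X m n) := by
  have : Fact (1 < n) := ⟨hn⟩
  have : Fact (1 < m) := ⟨hm⟩
  intro s t h
  fin_cases s <;> fin_cases t <;> simp_all [d]

theorem e_inj (hm : 2 ≤ m) (hn : 2 ≤ n) {x x' : X m n} {t t' : Fin 3} (h : e x t = e x' t') :
    x = x' ∧ t = t' := by
  have h' : s(Sum.inl x, Sum.inr (x - d t)) = (s(Sum.inl x', Sum.inr (x' - d t')) :
      Sym2 (X m n ⊕ X m n)) := congrArg Subtype.val h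
  rw [Sym2.eq_iff] at h'
  rcases h' with ⟨h1, h2⟩ | ⟨h1, -⟩
  · have hx : x = x' := Sum.inl_injective h1
    subst hx
    refine ⟨rfl, d_inj hm hn ?_⟩
    have := Sum.inr_injective h2
    exact sub_right_injective this
  · exact absurd h1 (by simp)

theorem adj_iff {x x' : X m n} {t t' : Fin 3} :
    (kagome m n).Adj (e x t) (e x' t') ↔
      e x t ≠ e x' t' ∧ (x = x' ∨ x - d t = x' - d t') := by
  unfold kagome
  rw [SimpleGraph.lineGraph_adj_iff_exists]
  refine and_congr_right fun _ => ?_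
  constructor
  · rintro ⟨v, hv, hv'⟩
    simp only [e, Sym2.mem_iff] at hv hv'
    rcases hv with rfl | rfl <;> rcases hv' with h | h
    · left; exact Sum.inl_injective h
    · exact absurd h (by simp)
    · exact absurd h (by simp)
    · right; exact Sum.inr_injective h
  · rintro (rfl | h)
    · exact ⟨Sum.inl x, by simp [e], by simp [e]⟩
    · exact ⟨Sum.inr (x - d t), by simp [e], by simp [e, h]⟩

/-! ### Colourings as functions -/

/-- `f x t` is the colour of the edge of direction `t` at `(x, A)`; the three colours at every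
vertex `(x, A)` and at every vertex `(z, B)` are different -/
def Good (f : X m n → Fin 3 → Fin 3) : Prop :=
  (∀ x, Function.Injective (f x)) ∧ (∀ z, Function.Injective fun t => f (z + d t) t)

/-- `g` arises from `f` by interchanging two colours at some places -/
def Close (f g : X m n → Fin 3 → Fin 3) : Prop :=
  ∃ a b : Fin 3, a ≠ b ∧ ∀ x t, g x t = f x t ∨ (f x t = a ∧ g x t = b) ∨ (f x t = b ∧ g x t = a)

/-- `f` and `g` are joined by a sequence of good functions each close to the next one -/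
def Con (f g : X m n → Fin 3 → Fin 3) : Prop :=
  Relation.ReflTransGen (fun f g => Good f ∧ Good g ∧ Close f g) f g

theorem Close.symm {f g : X m n → Fin 3 → Fin 3} (h : Close f g) : Close g f := by
  obtain ⟨a, b, hab, h⟩ := h
  refine ⟨a, b, hab, fun x t => ?_⟩
  rcases h x t with h | ⟨h1, h2⟩ | ⟨h1, h2⟩
  · exact Or.inl h.symm
  · exact Or.inr (Or.inr ⟨h2, h1⟩)
  · exact Or.inr (Or.inl ⟨h2, h1⟩)

theorem Con.refl (f : X m n → Fin 3 → Fin 3) : Con f f := Relation.ReflTransGen.refl

theorem Con.trans {f g k : X m n → Fin 3 → Fin 3} (h : Con f g) (h' : Con g k) : Con f k :=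
  Relation.ReflTransGen.trans h h'

theorem Con.symm {f g : X m n → Fin 3 → Fin 3} (h : Con f g) : Con g f := by
  induction h with
  | refl => exact Con.refl _
  | tail _ h ih =>
    exact Relation.ReflTransGen.head ⟨h.2.1, h.1, h.2.2.symm⟩ ih

theorem Con.single {f g : X m n → Fin 3 → Fin 3} (hf : Good f) (hg : Good g) (h : Close f g) :
    Con f g := Relation.ReflTransGen.single ⟨hf, hg, h⟩

/-- all good functions are joined -/
def Erg (m n : ℕ) : Prop := ∀ f g : X m n → Fin 3 → Fin 3, Good f → Good g → Con f g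

noncomputable def E (hm : 2 ≤ m) (hn : 2 ≤ n) : X m n × Fin 3 ≃ (honeycomb m n).edgeSet :=
  Equiv.ofBijective (fun p => e p.1 p.2)
    ⟨fun p q h => Prod.ext (e_inj hm hn h).1 (e_inj hm hn h).2, fun a => by
      obtain ⟨x, t, h⟩ := e_surj a
      exact ⟨(x, t), h⟩⟩

theorem E_symm (hm : 2 ≤ m) (hn : 2 ≤ n) (x : X m n) (t : Fin 3) :
    (E hm hn).symm (e x t) = (x, t) := by
  rw [Equiv.symm_apply_eq]; rfl

/-- the colouring of a good function -/
noncomputable def mk (hm : 2 ≤ m) (hn : 2 ≤ n) (f : X m n → Fin 3 → Fin 3) (hf : Good f) :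
    (kagome m n).Coloring (Fin 3) :=
  SimpleGraph.Coloring.mk (fun a => f ((E hm hn).symm a).1 ((E hm hn).symm a).2) (by
    intro a b hab h
    obtain ⟨x, t, rfl⟩ := e_surj a
    obtain ⟨x', t', rfl⟩ := e_surj b
    rw [E_symm, E_symm] at h
    simp only at h
    rw [adj_iff] at hab
    obtain ⟨hne, h1 | h1⟩ := hab
    · subst h1
      apply hne
      rw [hf.1 x h]
    · have e1 : x = (x - d t) + d t := by abel
      have e2 : x' = (x - d t) + d t' := by rw [h1]; abel
      have h3 : t = t' := by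
        apply hf.2 (x - d t)
        show f ((x - d t) + d t) t = f ((x - d t) + d t') t'
        rw [← e1, ← e2]; exact h
      subst h3
      apply hne
      rw [e1, ← e2])

theorem mk_e (hm : 2 ≤ m) (hn : 2 ≤ n) {f : X m n → Fin 3 → Fin 3} (hf : Good f) (x : X m n)
    (t : Fin 3) : mk hm hn f hf (e x t) = f x t := by
  show f ((E hm hn).symm (e x t)).1 ((E hm hn).symm (e x t)).2 = _
  rw [E_symm]

/-- the function of a colouring -/
def fn (c : (kagome m n).Coloring (Fin 3)) : X m n → Fin 3 → Fin 3 := fun x t => c (e x t)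

theorem fn_good (hm : 2 ≤ m) (hn : 2 ≤ n) (c : (kagome m n).Coloring (Fin 3)) : Good (fn c) := by
  constructor
  · intro x t t' h
    by_contra hne
    refine c.valid (adj_iff.2 ⟨?_, Or.inl rfl⟩) h
    intro he
    exact hne (e_inj hm hn he).2
  · intro z t t' h
    by_contra hne
    refine c.valid (adj_iff.2 ⟨?_, Or.inr ?_⟩) h
    · intro he
      exact hne (e_inj hm hn he).2
    · abel

theorem fn_mk (hm : 2 ≤ m) (hn : 2 ≤ n) {f : X m n → Fin 3 → Fin 3} (hf : Good f) :
    fn (mk hm hn f hf) = f := by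
  funext x t
  exact mk_e hm hn hf x t

theorem mk_fn (hm : 2 ≤ m) (hn : 2 ≤ n) (c : (kagome m n).Coloring (Fin 3)) :
    mk hm hn (fn c) (fn_good hm hn c) = c := by
  apply DFunLike.ext
  intro a
  obtain ⟨x, t, rfl⟩ := e_surj a
  rw [mk_e]; rfl

/-- two colourings of any graph which differ by interchanging two colours at some places are
joined by Kempe changes -/
theorem reach_of_close {V : Type*} [Finite V] {G : SimpleGraph V} {q : ℕ} {c c' : G.Coloring (Fin q)}
    {a b : Fin q} (hab : a ≠ b)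
    (h : ∀ v, c' v = c v ∨ (c v = a ∧ c' v = b) ∨ (c v = b ∧ c' v = a)) :
    Relation.ReflTransGen KempeStep c c' := by
  refine reach_of_closed hab _ c c' {v | c' v ≠ c v} rfl ⟨?_, ?_⟩ ⟨?_, ?_⟩
  · intro v hv
    rcases h v with h | ⟨h1, h2⟩ | ⟨h1, h2⟩
    · exact absurd h hv
    · exact Or.inl h1
    · exact Or.inr h1
  · intro v hv w hvw hw hcw
    have h1 := c.valid hvw
    have h2 := c'.valid hvw
    rcases h v with h3 | ⟨h3, h4⟩ | ⟨h3, h4⟩
    · exact hv h3
    · rcases hw with hw | hw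
      · exact h1 (h3.trans hw.symm)
      · exact h2 (by rw [h4, hcw, hw])
    · rcases hw with hw | hw
      · exact h2 (by rw [h4, hcw, hw])
      · exact h1 (h3.trans hw.symm)
  · intro v hv
    rcases h v with h3 | ⟨h3, h4⟩ | ⟨h3, h4⟩
    · exact absurd h3 hv
    · rw [h3, h4, Equiv.swap_apply_left]
    · rw [h3, h4, Equiv.swap_apply_right]
  · intro v hv
    by_contra h5
    exact hv h5

theorem erg_iff (hm : 2 ≤ m) (hn : 2 ≤ n) : WSKErgodic (kagome m n) 3 ↔ Erg m n := by
  have : NeZero n := ⟨by omega⟩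
  have : NeZero m := ⟨by omega⟩
  constructor
  · intro H f g hf hg
    have h := H (mk hm hn f hf) (mk hm hn g hg)
    have key : ∀ c c' : (kagome m n).Coloring (Fin 3),
        Relation.ReflTransGen KempeStep c c' → Con (fn c) (fn c') := by
      intro c c' h
      induction h with
      | refl => exact Con.refl _
      | tail _ h ih =>
        refine ih.trans (Con.single (fn_good hm hn _) (fn_good hm hn _) ?_)
        obtain ⟨a, b, hab, U, hU, hs⟩ := h.closed
        refine ⟨a, b, hab, fun x t => ?_⟩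
        by_cases hx : e x t ∈ U
        · have h1 := hs.1 _ hx
          rcases hU.1 _ hx with h2 | h2
          · right; left
            refine ⟨h2, ?_⟩
            show _ = _
            unfold fn
            rw [h1, h2, Equiv.swap_apply_left]
          · right; right
            refine ⟨h2, ?_⟩
            unfold fn
            rw [h1, h2, Equiv.swap_apply_right]
        · left
          exact hs.2 _ hx
    have := key _ _ h
    rwa [fn_mk, fn_mk] at this
  · intro H c c'
    have key : ∀ f g : X m n → Fin 3 → Fin 3, Con f g → ∀ (hf : Good f) (hg : Good g),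
        Relation.ReflTransGen KempeStep (mk hm hn f hf) (mk hm hn g hg) := by
      intro f g h
      induction h with
      | refl => intro hf hg; exact Relation.ReflTransGen.refl
      | tail _ h ih =>
        intro hf hg
        refine (ih hf h.1).trans ?_
        obtain ⟨a, b, hab, hc⟩ := h.2.2
        apply reach_of_close hab
        intro v
        obtain ⟨x, t, rfl⟩ := e_surj v
        rw [mk_e, mk_e]
        exact hc x t
    have := key _ _ (H (fn c) (fn c') (fn_good hm hn c) (fn_good hm hn c'))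
      (fn_good hm hn c) (fn_good hm hn c')
    rwa [mk_fn, mk_fn] at this

/-! ### Transposition -/

/-- interchange of the directions `1` and `2` -/
def tau (t : Fin 3) : Fin 3 := ![0, 2, 1] t

theorem tau_tau (t : Fin 3) : tau (tau t) = t := by revert t; decide

theorem tau_inj : Function.Injective tau := fun a b h => by
  have := congrArg tau h
  rwa [tau_tau, tau_tau] at this

theorem swap_d (t : Fin 3) : (d (m := m) (n := n) t).swap = d (tau t) := by
  fin_cases t <;> rfl

/-- the transposed function -/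
def tr (f : X m n → Fin 3 → Fin 3) : X n m → Fin 3 → Fin 3 := fun x t => f x.swap (tau t)

theorem tr_tr (f : X m n → Fin 3 → Fin 3) : tr (tr f) = f := by
  funext x t
  simp [tr, tau_tau]

theorem Good.tr {f : X m n → Fin 3 → Fin 3} (hf : Good f) : Good (tr f) := by
  constructor
  · intro x t t' h
    exact tau_inj (hf.1 _ h)
  · intro z t t' h
    have h' : f (z + d t).swap (tau t) = f (z + d t').swap (tau t') := h
    rw [Prod.swap_add, Prod.swap_add, swap_d, swap_d] at h'
    exact tau_inj (hf.2 _ h')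

theorem Close.tr {f g : X m n → Fin 3 → Fin 3} (h : Close f g) : Close (tr f) (tr g) := by
  obtain ⟨a, b, hab, h⟩ := h
  exact ⟨a, b, hab, fun x t => h _ _⟩

theorem Con.tr {f g : X m n → Fin 3 → Fin 3} (h : Con f g) : Con (tr f) (tr g) := by
  induction h with
  | refl => exact Con.refl _
  | tail _ h ih => exact ih.trans (Con.single h.1.tr h.2.1.tr h.2.2.tr)

theorem Erg.tr (h : Erg m n) : Erg n m := by
  intro f g hf hg
  have := (h (Kag.tr f) (Kag.tr g) hf.tr hg.tr).tr
  rwa [tr_tr, tr_tr] at this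

theorem erg_comm : Erg m n ↔ Erg n m := ⟨Erg.tr, Erg.tr⟩

/-! ### The sign -/

/-- the sign of the permutation with the values `a, b, c` -/
def sg (a b c : Fin 3) : ℤ := if b = a + 1 ∧ c = a + 2 then 1 else -1

theorem sg_close : ∀ p q r a b : Fin 3, ∀ p' q' r' : Fin 3, p ≠ q → q ≠ r → p ≠ r → a ≠ b →
    p' ≠ q' → q' ≠ r' → p' ≠ r' →
    (p' = p ∨ (p = a ∧ p' = b) ∨ (p = b ∧ p' = a)) →
    (q' = q ∨ (q = a ∧ q' = b) ∨ (q = b ∧ q' = a)) →
    (r' = r ∨ (r = a ∧ r' = b) ∨ (r = b ∧ r' = a)) →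
    sg p' q' r' = sg p q r * ((if p = a ∧ p' = b then -1 else 1) *
      (if q = a ∧ q' = b then -1 else 1) * (if r = a ∧ r' = b then -1 else 1)) := by
  decide +kernel

variable [NeZero m] [NeZero n]

/-- the product of the local signs at all vertices -/
def eps (f : X m n → Fin 3 → Fin 3) : ℤ :=
  (∏ x : X m n, sg (f x 0) (f x 1) (f x 2)) *
    ∏ z : X m n, sg (f (z + d 0) 0) (f (z + d 1) 1) (f (z + d 2) 2)

theorem eps_close {f g : X m n → Fin 3 → Fin 3} (hf : Good f) (hg : Good g) (h : Close f g) :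
    eps g = eps f := by
  obtain ⟨a, b, hab, h⟩ := h
  obtain ⟨χ, hχ⟩ : ∃ χ : X m n → Fin 3 → ℤ, χ = fun x t => if f x t = a ∧ g x t = b then -1 else 1 :=
    ⟨_, rfl⟩
  have hχ1 : ∀ x t, χ x t * χ x t = 1 := by
    intro x t; rw [hχ]; dsimp only; split_ifs <;> norm_num
  have ne : ∀ {k : Fin 3 → Fin 3}, Function.Injective k → k 0 ≠ k 1 ∧ k 1 ≠ k 2 ∧ k 0 ≠ k 2 := by
    intro k hk
    exact ⟨fun h => absurd (hk h) (by decide), fun h => absurd (hk h) (by decide),
      fun h => absurd (hk h) (by decide)⟩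
  have hA : ∀ x, sg (g x 0) (g x 1) (g x 2) =
      sg (f x 0) (f x 1) (f x 2) * (χ x 0 * χ x 1 * χ x 2) := by
    intro x
    obtain ⟨h1, h2, h3⟩ := ne (hf.1 x)
    obtain ⟨h4, h5, h6⟩ := ne (hg.1 x)
    rw [hχ]
    exact sg_close _ _ _ a b _ _ _ h1 h2 h3 hab h4 h5 h6 (h x 0) (h x 1) (h x 2)
  have hB : ∀ z, sg (g (z + d 0) 0) (g (z + d 1) 1) (g (z + d 2) 2) =
      sg (f (z + d 0) 0) (f (z + d 1) 1) (f (z + d 2) 2) *
        (χ (z + d 0) 0 * χ (z + d 1) 1 * χ (z + d 2) 2) := by
    intro z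
    obtain ⟨h1, h2, h3⟩ := ne (hf.2 z)
    obtain ⟨h4, h5, h6⟩ := ne (hg.2 z)
    rw [hχ]
    exact sg_close _ _ _ a b _ _ _ h1 h2 h3 hab h4 h5 h6 (h _ 0) (h _ 1) (h _ 2)
  have hP : ∀ t, ∏ z : X m n, χ (z + d t) t = ∏ x : X m n, χ x t := by
    intro t
    exact Fintype.prod_equiv (Equiv.addRight (d t)) _ _ (fun z => rfl)
  have hA' : ∏ x : X m n, sg (g x 0) (g x 1) (g x 2) =
      (∏ x : X m n, sg (f x 0) (f x 1) (f x 2)) * ∏ x : X m n, (χ x 0 * χ x 1 * χ x 2) := by
    rw [← Finset.prod_mul_distrib]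
    exact Finset.prod_congr rfl fun x _ => hA x
  have hB' : ∏ z : X m n, sg (g (z + d 0) 0) (g (z + d 1) 1) (g (z + d 2) 2) =
      (∏ z : X m n, sg (f (z + d 0) 0) (f (z + d 1) 1) (f (z + d 2) 2)) *
        ∏ z : X m n, (χ (z + d 0) 0 * χ (z + d 1) 1 * χ (z + d 2) 2) := by
    rw [← Finset.prod_mul_distrib]
    exact Finset.prod_congr rfl fun x _ => hB x
  unfold eps
  rw [hA', hB']
  have h7 : (∏ x : X m n, χ x 0 * χ x 1 * χ x 2) *
      (∏ z : X m n, χ (z + d 0) 0 * χ (z + d 1) 1 * χ (z + d 2) 2) = 1 := by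
    rw [Finset.prod_mul_distrib, Finset.prod_mul_distrib, Finset.prod_mul_distrib,
      Finset.prod_mul_distrib, hP, hP, hP]
    have h8 : ∀ t, (∏ x : X m n, χ x t) * (∏ x : X m n, χ x t) = 1 := by
      intro t
      rw [← Finset.prod_mul_distrib]
      exact Finset.prod_eq_one fun x _ => hχ1 x t
    have h0 := h8 0
    have h1 := h8 1
    have h2 := h8 2
    generalize (∏ x : X m n, χ x 0) = P at *
    generalize (∏ x : X m n, χ x 1) = Q at *
    generalize (∏ x : X m n, χ x 2) = R at *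
    calc P * Q * R * (P * Q * R) = (P * P) * (Q * Q) * (R * R) := by ring
      _ = 1 := by rw [h0, h1, h2]; norm_num
  generalize (∏ x : X m n, χ x 0 * χ x 1 * χ x 2) = P at *
  generalize (∏ z : X m n, χ (z + d 0) 0 * χ (z + d 1) 1 * χ (z + d 2) 2) = Q at *
  generalize (∏ x : X m n, sg (f x 0) (f x 1) (f x 2)) = R at *
  generalize (∏ z : X m n, sg (f (z + d 0) 0) (f (z + d 1) 1) (f (z + d 2) 2)) = S at *
  calc R * P * (S * Q) = R * S * (P * Q) := by ring
    _ = R * S := by rw [h7, mul_one]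

theorem eps_con {f g : X m n → Fin 3 → Fin 3} (h : Con f g) : eps g = eps f := by
  induction h with
  | refl => rfl
  | tail _ h ih => rw [eps_close h.1 h.2.1 h.2.2, ih]

omit [NeZero m] [NeZero n] in
theorem good_std : Good (fun (_ : X m n) (t : Fin 3) => t) :=
  ⟨fun _ _ _ h => h, fun _ _ _ h => h⟩

theorem eps_std : eps (fun (_ : X m n) (t : Fin 3) => t) = 1 := by
  unfold eps
  have h : sg 0 1 2 = 1 := by decide
  simp [h]

/-- there is a good function of sign `-1` -/
def Neg (m n : ℕ) [NeZero m] [NeZero n] : Prop := ∃ f : X m n → Fin 3 → Fin 3, Good f ∧ eps f = -1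

/-- a good function of sign `-1` shows that not all good functions are joined -/
theorem Neg.not_erg (h : Neg m n) : ¬ Erg m n := by
  obtain ⟨f, hf, h⟩ := h
  intro H
  have := eps_con (H _ _ good_std hf)
  rw [eps_std, h] at this
  exact absurd this (by decide)

theorem Erg.eps_eq_one (H : Erg m n) {f : X m n → Fin 3 → Fin 3} (hf : Good f) : eps f = 1 := by
  rw [eps_con (H _ _ good_std hf), eps_std]

theorem sg_swap : ∀ a b c : Fin 3, a ≠ b → b ≠ c → a ≠ c → sg a c b = - sg a b c := by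
  decide

theorem eps_tr {f : X m n → Fin 3 → Fin 3} (hf : Good f) : eps (tr f) = eps f := by
  have ne : ∀ {k : Fin 3 → Fin 3}, Function.Injective k → k 0 ≠ k 1 ∧ k 1 ≠ k 2 ∧ k 0 ≠ k 2 := by
    intro k hk
    exact ⟨fun h => absurd (hk h) (by decide), fun h => absurd (hk h) (by decide),
      fun h => absurd (hk h) (by decide)⟩
  have hA : ∏ x : X n m, sg (tr f x 0) (tr f x 1) (tr f x 2) =
      ∏ x : X m n, (-1) * sg (f x 0) (f x 1) (f x 2) := by
    refine Fintype.prod_equiv (Equiv.prodComm _ _) _ _ fun x => ?_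
    obtain ⟨h1, h2, h3⟩ := ne (hf.1 x.swap)
    have := sg_swap _ _ _ h1 h2 h3
    show sg (f x.swap 0) (f x.swap 2) (f x.swap 1) = _
    rw [this, neg_one_mul]
    rfl
  have hB : ∏ z : X n m, sg (tr f (z + d 0) 0) (tr f (z + d 1) 1) (tr f (z + d 2) 2) =
      ∏ z : X m n, (-1) * sg (f (z + d 0) 0) (f (z + d 1) 1) (f (z + d 2) 2) := by
    refine Fintype.prod_equiv (Equiv.prodComm _ _) _ _ fun z => ?_
    obtain ⟨h1, h2, h3⟩ := ne (hf.2 z.swap)
    have := sg_swap _ _ _ h1 h2 h3
    show sg (f (z + d 0).swap 0) (f (z + d 1).swap 2) (f (z + d 2).swap 1) = _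
    rw [Prod.swap_add, Prod.swap_add, Prod.swap_add, swap_d, swap_d, swap_d]
    show sg (f (z.swap + d 0) 0) (f (z.swap + d 2) 2) (f (z.swap + d 1) 1) = _
    rw [this, neg_one_mul]
    rfl
  unfold eps
  rw [hA, hB, Finset.prod_mul_distrib, Finset.prod_mul_distrib]
  have h1 : (∏ _x : X m n, (-1 : ℤ)) * (∏ _x : X m n, (-1 : ℤ)) = 1 := by
    rw [← Finset.prod_mul_distrib]
    simp
  generalize (∏ _x : X m n, (-1 : ℤ)) = P at *
  generalize (∏ x : X m n, sg (f x 0) (f x 1) (f x 2)) = Q
  generalize (∏ z : X m n, sg (f (z + d 0) 0) (f (z + d 1) 1) (f (z + d 2) 2)) = R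
  calc P * Q * (P * R) = (P * P) * (Q * R) := by ring
    _ = Q * R := by rw [h1, one_mul]

theorem Neg.tr (h : Neg m n) : Neg n m := by
  obtain ⟨f, hf, h⟩ := h
  exact ⟨Kag.tr f, hf.tr, by rw [eps_tr hf, h]⟩

end Pool.Agent.KS6_67.Kag
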