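import Pool.Agent.KS6_67.Kag.Rows

/-!
# The ergodic cases: `m = 2`, and `m = 3` with `n` even
-/

set_option autoImplicit false

namespace Pool.Agent.KS6_67.Kag

variable {m n : ℕ}

/-! ### Constant functions -/

/-- the function which does not depend on the cell -/
def cst (k : Fin 3 → Fin 3) : X m n → Fin 3 → Fin 3 := fun _ => k

theorem good_cst {k : Fin 3 → Fin 3} (hk : Function.Injective k) :
    Good (cst k : X m n → Fin 3 → Fin 3) := ⟨fun _ => hk, fun _ => hk⟩

theorem con_cst_swap {k : Fin 3 → Fin 3} (hk : Function.Injective k) (a b : Fin 3) :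
    Con (cst k : X m n → Fin 3 → Fin 3) (cst (Equiv.swap a b ∘ k)) := by
  by_cases hab : a = b
  · subst hab
    rw [Equiv.swap_self]
    exact Con.refl _
  · refine Con.single (good_cst hk) (good_cst ((Equiv.injective _).comp hk)) ⟨a, b, hab, ?_⟩
    intro _ t
    show (Equiv.swap a b (k t) = k t) ∨ (k t = a ∧ Equiv.swap a b (k t) = b) ∨
      (k t = b ∧ Equiv.swap a b (k t) = a)
    by_cases h1 : k t = a
    · right; left; rw [h1]; exact ⟨rfl, Equiv.swap_apply_left _ _⟩
    · by_cases h2 : k t = b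
      · right; right; rw [h2]; exact ⟨rfl, Equiv.swap_apply_right _ _⟩
      · left; exact Equiv.swap_apply_of_ne_of_ne h1 h2

theorem con_cst {k : Fin 3 → Fin 3} (hk : Function.Injective k) :
    Con (cst k : X m n → Fin 3 → Fin 3) (cst id) := by
  have h1 := con_cst_swap (m := m) (n := n) hk (k 0) 0
  have hk1 : Function.Injective (Equiv.swap (k 0) 0 ∘ k) := (Equiv.injective _).comp hk
  have h10 : (Equiv.swap (k 0) 0 ∘ k) 0 = 0 := Equiv.swap_apply_left _ _
  generalize Equiv.swap (k 0) 0 ∘ k = k1 at *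
  have h2 := con_cst_swap (m := m) (n := n) hk1 (k1 1) 1
  have hk2 : Function.Injective (Equiv.swap (k1 1) 1 ∘ k1) := (Equiv.injective _).comp hk1
  have h20 : (Equiv.swap (k1 1) 1 ∘ k1) 0 = 0 := by
    show Equiv.swap (k1 1) 1 (k1 0) = 0
    rw [h10]
    refine Equiv.swap_apply_of_ne_of_ne ?_ (by decide)
    intro h
    rw [← h10] at h
    exact absurd (hk1 h) (by decide)
  have h21 : (Equiv.swap (k1 1) 1 ∘ k1) 1 = 1 := Equiv.swap_apply_left _ _
  generalize Equiv.swap (k1 1) 1 ∘ k1 = k2 at *
  have : k2 = id := by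
    obtain ⟨e1, e2, e3⟩ := ne3 hk2
    rw [h20] at e1 e2
    rw [h21] at e3
    funext t
    fin_cases t
    · exact h20
    · exact h21
    · show k2 2 = 2
      generalize k2 2 = z at *
      revert e2 e3
      revert z
      decide
  rw [this] at h2
  exact h1.trans h2

/-! ### A colour which is absent from a level -/

theorem absent_row [NeZero m] {r : RowW m} {c : Fin 3} (hr : IsRow r) (h : ∀ x, dn r x ≠ c) :
    (∀ x, r.1 x = c) ∨ (∀ x, r.2 x = c) := by
  have key : ∀ a b c : Fin 3, a ≠ b → -(a + b) ≠ c → a = c ∨ b = c := by decide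
  have h1 : ∀ x, r.1 x = c ∨ r.2 (x - 1) = c := fun x => key _ _ _ (hr x).2 (h x)
  by_cases hu : ∃ x, r.1 x = c
  · left
    obtain ⟨x0, hx0⟩ := hu
    have step : ∀ k : ℕ, r.1 (x0 + k) = c := by
      intro k
      induction k with
      | zero => simpa using hx0
      | succ k ih =>
        have h2 := (hr (x0 + k)).1
        rw [ih] at h2
        rcases h1 (x0 + (k + 1 : ℕ)) with h3 | h3
        · exact h3
        · have e : x0 + ((k + 1 : ℕ) : ZMod m) - 1 = x0 + k := by push_cast; ring
          rw [e] at h3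
          exact absurd h3.symm h2
    intro x
    have := step (x - x0).val
    rwa [ZMod.natCast_zmod_val, add_sub_cancel] at this
  · right
    push Not at hu
    intro x
    have := (h1 (x + 1)).resolve_left (hu _)
    rwa [add_sub_cancel_right] at this

theorem absent_up [NeZero m] {r : RowW m} {c : Fin 3} (hr : IsRow r) (h : ∀ x, dn r x ≠ c) :
    ∀ x, up r x ≠ c := by
  intro x
  have h1 := (hr x).1
  have h2 := third_ne _ _ h1
  rcases absent_row hr h with h3 | h3
  · rw [h3 x] at h2 h1
    unfold up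
    rw [h3 x]
    exact h2.1.symm
  · rw [h3 x] at h2 h1
    unfold up
    rw [h3 x]
    exact h2.2.symm

theorem absent_all [NeZero m] [NeZero n] {R : ZMod n → RowW m} (hR : Comp R) {c : Fin 3} {y0 : ZMod n}
    (h : ∀ x, dn (R y0) x ≠ c) : ∀ y x, dn (R y) x ≠ c := by
  have step : ∀ k : ℕ, ∀ x, dn (R (y0 + k)) x ≠ c := by
    intro k
    induction k with
    | zero => simpa using h
    | succ k ih =>
      intro x
      have := absent_up (hR.1 _) ih x
      rw [hR.2] at this
      rwa [show y0 + ((k + 1 : ℕ) : ZMod n) = y0 + k + 1 by push_cast; ring]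
  intro y
  have := step (y - y0).val
  rwa [ZMod.natCast_zmod_val, add_sub_cancel] at this

/-- if a colour is absent from the vertical edges of one level, then the colouring is joined to the
constant colouring -/
theorem con_of_absent [NeZero m] [NeZero n] {R : ZMod n → RowW m} (hR : Comp R) {c : Fin 3}
    {y0 : ZMod n} (h : ∀ x, dn (R y0) x ≠ c) : Con (mkf R) (cst id) := by
  have hall := absent_all hR h
  have hrow : ∀ y, (∀ x, (R y).1 x = c) ∨ (∀ x, (R y).2 x = c) :=
    fun y => absent_row (hR.1 y) (hall y)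
  classical
  have f0 : ∀ c : Fin 3, c ≠ c + 1 ∧ c + 1 ≠ c ∧ c + 1 ≠ c + 2 ∧ -(c + (c + 1)) = c + 2 ∧
      -(c + 1 + c) = c + 2 := by decide
  have f2 : ∀ c : Fin 3, c ≠ c + 2 := by decide
  have f1 : ∀ c a : Fin 3, a ≠ c → Cl (c + 1) (c + 2) a (c + 1) := by decide
  have f1' : ∀ c a : Fin 3, a ≠ c → Cl (c + 1) (c + 2) a (c + 2) := by decide
  -- the first intermediate colouring
  obtain ⟨S, hS⟩ : ∃ S : ZMod n → RowW m, S = fun y =>
      if ∀ x, (R y).1 x = c then (fun _ => c, fun _ => c + 1) else (fun _ => c + 1, fun _ => c) :=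
    ⟨_, rfl⟩
  have hSd : ∀ y x, dn (S y) x = c + 2 ∧ up (S y) x = c + 2 := by
    intro y x
    rw [hS]
    dsimp only
    split_ifs
    · exact ⟨(f0 c).2.2.2.1, (f0 c).2.2.2.1⟩
    · exact ⟨(f0 c).2.2.2.2, (f0 c).2.2.2.2⟩
  have hSc : Comp S := by
    constructor
    · intro y x
      rw [hS]
      dsimp only
      split_ifs
      · exact ⟨(f0 c).1, (f0 c).1⟩
      · exact ⟨(f0 c).2.1, (f0 c).2.1⟩
    · intro y
      funext x
      rw [(hSd _ _).1, (hSd _ _).2]
  have hc : Close (mkf R) (mkf S) := by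
    refine close_mkf (f0 c).2.2.1 ?_ ?_ ?_
    · intro y x
      by_cases h1 : ∀ x, (R y).1 x = c
      · rw [hS]
        dsimp only
        rw [if_pos h1, h1 x]
        exact Or.inl rfl
      · have h2 := (hrow y).resolve_left h1
        have h3 := (hR.1 y x).1
        rw [h2 x] at h3
        rw [hS]
        dsimp only
        rw [if_neg h1]
        exact f1 c _ h3
    · intro y x
      by_cases h1 : ∀ x, (R y).1 x = c
      · have h3 := (hR.1 y x).1
        rw [h1 x] at h3
        rw [hS]
        dsimp only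
        rw [if_pos h1]
        exact f1 c _ h3.symm
      · have h2 := (hrow y).resolve_left h1
        rw [hS]
        dsimp only
        rw [if_neg h1, h2 x]
        exact Or.inl rfl
    · intro y x
      rw [(hSd y x).1]
      exact f1' c _ (hall y x)
  -- the second one
  have hT : Comp (fun _ : ZMod n => ((fun _ => c + 1, fun _ => c) : RowW m)) :=
    ⟨fun y x => ⟨(f0 c).2.1, (f0 c).2.1⟩, fun y => rfl⟩
  have hc2 : Close (mkf S) (mkf (fun _ : ZMod n => ((fun _ => c + 1, fun _ => c) : RowW m))) := by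
    refine close_mkf (f0 c).1 ?_ ?_ ?_
    · intro y x
      rw [hS]
      dsimp only
      split_ifs
      · exact Or.inr (Or.inl ⟨rfl, rfl⟩)
      · exact Or.inl rfl
    · intro y x
      rw [hS]
      dsimp only
      split_ifs
      · exact Or.inr (Or.inr ⟨rfl, rfl⟩)
      · exact Or.inl rfl
    · intro y x
      rw [(hSd y x).1]
      exact Or.inl (f0 c).2.2.2.2
  have h3 : mkf (fun _ : ZMod n => ((fun _ => c + 1, fun _ => c) : RowW m)) =
      cst ![c + 1, c, c + 2] := by
    funext p
    show ![c + 1, c, -(c + 1 + c)] = _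
    rw [(f0 c).2.2.2.2]
    rfl
  have h4 := (Con.single (good_mkf hR) (good_mkf hSc) hc).trans
    (Con.single (good_mkf hSc) (good_mkf hT) hc2)
  rw [h3] at h4
  refine h4.trans (con_cst ?_)
  apply inj3
  · exact (f0 c).2.1
  · exact (f0 c).2.2.1
  · exact f2 c

theorem erg_of_con (h : ∀ R : ZMod n → RowW m, Comp R → Con (mkf R) (cst id)) : Erg m n := by
  intro f g hf hg
  have h1 := h (row f) (comp_row hf)
  have h2 := h (row g) (comp_row hg)
  rw [mkf_row hf] at h1
  rw [mkf_row hg] at h2
  exact h1.trans h2.symm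

theorem erg_two [NeZero n] : Erg 2 n := by
  apply erg_of_con
  intro R hR
  obtain ⟨c, hc⟩ : ∃ c, ∀ x, dn (R 0) x ≠ c := by
    have key : ∀ a b : Fin 3, ∃ c, a ≠ c ∧ b ≠ c := by decide
    obtain ⟨c, h0, h1⟩ := key (dn (R 0) 0) (dn (R 0) 1)
    refine ⟨c, fun x => ?_⟩
    fin_cases x
    · exact h0
    · exact h1
  exact con_of_absent hR hc

end Pool.Agent.KS6_67.Kag
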