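import Pool.Agent.KS6_67.Kag.Fin3

/-!
# The case `m = 3`, `n` even
-/

set_option autoImplicit false

namespace Pool.Agent.KS6_67.Kag

variable {n : ℕ}

/-- full interchange of two colours in a row -/
def swr (γ : Fin 3) (r : RowW 3) : RowW 3 := (fun x => sw γ (r.1 x), fun x => sw γ (r.2 x))

theorem sw_cl : ∀ γ a : Fin 3, Cl (γ + 1) (γ + 2) a (sw γ a) := by decide

theorem sw_eq : ∀ γ a : Fin 3, sw γ a = γ ↔ a = γ := by decide

theorem sw_third : ∀ γ a b : Fin 3, a ≠ b → -(sw γ a + sw γ b) = sw γ (-(a + b)) := by decide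

theorem swr_isRow {γ : Fin 3} {r : RowW 3} (h : IsRow r) : IsRow (swr γ r) :=
  fun x => ⟨fun h' => (h x).1 ((sw γ).injective h'), fun h' => (h x).2 ((sw γ).injective h')⟩

theorem swr_dn {γ : Fin 3} {r : RowW 3} (h : IsRow r) (x : ZMod 3) :
    dn (swr γ r) x = sw γ (dn r x) := sw_third γ _ _ (h x).2

theorem swr_up {γ : Fin 3} {r : RowW 3} (h : IsRow r) (x : ZMod 3) :
    up (swr γ r) x = sw γ (up r x) := sw_third γ _ _ (h x).1

theorem swr_tn (γ : Fin 3) (r : RowW 3) : tn γ (swr γ r) ↔ tn γ r := by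
  unfold tn swr
  dsimp only
  simp only [sw_eq]

theorem swr_isX (γ : Fin 3) (r : RowW 3) : isX (swr γ r) ↔ isX r := by
  unfold isX swr
  dsimp only
  constructor
  · intro h x; exact (sw γ).injective (h x)
  · intro h x; rw [h x]

/-- all rows have three different vertical colours -/
def Full (R : ZMod n → RowW 3) : Prop := ∀ y, Full3 (R y)

theorem full3_of_dn {r r' : RowW 3} {σ : Equiv.Perm (Fin 3)} (h : ∀ x, dn r' x = σ (dn r x))
    (hf : Full3 r) : Full3 r' := by
  obtain ⟨h1, h2, h3⟩ := hf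
  unfold Full3
  rw [h, h, h]
  exact ⟨fun h' => h1 (σ.injective h'), fun h' => h2 (σ.injective h'),
    fun h' => h3 (σ.injective h')⟩

theorem val_succ (hn : 2 ≤ n) (y : ZMod n) :
    (y.val + 1 < n ∧ (y + 1).val = y.val + 1) ∨ (y.val + 1 = n ∧ (y + 1).val = 0) := by
  have : NeZero n := ⟨by omega⟩
  have h1 : Fact (1 < n) := ⟨hn⟩
  by_cases hy : y.val + 1 < n
  · left
    exact ⟨hy, by rw [ZMod.val_add_of_lt (by rw [ZMod.val_one]; exact hy), ZMod.val_one]⟩
  · right
    have hy' : y.val + 1 = n := by have := y.val_lt; omega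
    exact ⟨hy', by rw [ZMod.val_add, ZMod.val_one, hy', Nat.mod_self]⟩

/-- The exchange between two rows in which the edges of colour `γ` are opposite. -/
theorem toggle (hn : 2 ≤ n) {R : ZMod n → RowW 3} (hR : Comp R) (hF : Full R) (γ : Fin 3)
    {y1 y2 : ZMod n} (h12 : y1 ≠ y2) (h1 : tn γ (R y1)) (h2 : tn γ (R y2)) :
    ∃ R' : ZMod n → RowW 3, Comp R' ∧ Full R' ∧ Con (mkf R) (mkf R') ∧
      (∀ y, tn γ (R' y) ↔ tn γ (R y)) ∧
      (∀ y, y ≠ y1 → y ≠ y2 → (isX (R' y) ↔ isX (R y))) ∧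
      (isX (R' y1) ↔ ¬ isX (R y1)) ∧ (isX (R' y2) ↔ ¬ isX (R y2)) := by
  have hn0 : NeZero n := ⟨by omega⟩
  wlog hlt : y1.val < y2.val generalizing y1 y2 with H
  · have hlt' : y2.val < y1.val := by
      have : y1.val ≠ y2.val := fun h => h12 (ZMod.val_injective n h)
      omega
    obtain ⟨R', k1, k2, k3, k4, k5, k6, k7⟩ := H h12.symm h2 h1 hlt'
    exact ⟨R', k1, k2, k3, k4, fun y a b => k5 y b a, k7, k6⟩
  have hu := tu_prop (hR.1 y1) (hF y1) h1
  have hd := td_prop (hR.1 y2) (hF y2) h2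
  obtain ⟨u1, u2, u3, u4, u5, u6⟩ := hu
  obtain ⟨d1, d2, d3, d4, d5, d6⟩ := hd
  obtain ⟨R', hR'⟩ : ∃ R' : ZMod n → RowW 3, R' = fun y =>
      if y = y1 then tu γ (R y1) else if y = y2 then td γ (R y2) else
        if y1.val < y.val ∧ y.val < y2.val then swr γ (R y) else R y := ⟨_, rfl⟩
  have e1 : R' y1 = tu γ (R y1) := by rw [hR']; dsimp only; rw [if_pos rfl]
  have e2 : R' y2 = td γ (R y2) := by
    rw [hR']; dsimp only; rw [if_neg h12.symm, if_pos rfl]
  have e3 : ∀ y, y ≠ y1 → y ≠ y2 → (y1.val < y.val ∧ y.val < y2.val) → R' y = swr γ (R y) := by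
    intro y a b c
    rw [hR']; dsimp only; rw [if_neg a, if_neg b, if_pos c]
  have e4 : ∀ y, y ≠ y1 → y ≠ y2 → ¬ (y1.val < y.val ∧ y.val < y2.val) → R' y = R y := by
    intro y a b c
    rw [hR']; dsimp only; rw [if_neg a, if_neg b, if_neg c]
  have hne : ∀ {y z : ZMod n}, y ≠ z → y.val ≠ z.val := fun h h' => h (ZMod.val_injective n h')
  have hrow : ∀ y, IsRow (R' y) := by
    intro y
    by_cases a : y = y1
    · rw [a, e1]; exact u1
    by_cases b : y = y2
    · rw [b, e2]; exact d1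
    by_cases c : y1.val < y.val ∧ y.val < y2.val
    · rw [e3 y a b c]; exact swr_isRow (hR.1 y)
    · rw [e4 y a b c]; exact hR.1 y
  have hdn : ∀ y x, dn (R' y) x = if y1.val < y.val ∧ y.val ≤ y2.val then sw γ (dn (R y) x) else
      dn (R y) x := by
    intro y x
    by_cases a : y = y1
    · rw [a, e1, if_neg (by omega)]; exact u5 x
    by_cases b : y = y2
    · rw [b, e2, if_pos (by omega)]; exact d5 x
    have a' := hne a
    have b' := hne b
    by_cases c : y1.val < y.val ∧ y.val < y2.val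
    · rw [e3 y a b c, if_pos (by omega)]; exact swr_dn (hR.1 y) x
    · rw [e4 y a b c, if_neg (by omega)]
  have hup : ∀ y x, up (R' y) x = if y1.val ≤ y.val ∧ y.val < y2.val then sw γ (up (R y) x) else
      up (R y) x := by
    intro y x
    by_cases a : y = y1
    · rw [a, e1, if_pos (by omega)]; exact u6 x
    by_cases b : y = y2
    · rw [b, e2, if_neg (by omega)]; exact d6 x
    have a' := hne a
    have b' := hne b
    by_cases c : y1.val < y.val ∧ y.val < y2.val
    · rw [e3 y a b c, if_pos (by omega)]; exact swr_up (hR.1 y) x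
    · rw [e4 y a b c, if_neg (by omega)]
  have hcomp : Comp R' := by
    refine ⟨hrow, fun y => ?_⟩
    funext x
    rw [hup, hdn, hR.2 y]
    have hv := val_succ hn y
    have hy2 := y2.val_lt
    by_cases c : y1.val ≤ y.val ∧ y.val < y2.val
    · rw [if_pos c, if_pos (by omega)]
    · rw [if_neg c, if_neg (by omega)]
  refine ⟨R', hcomp, ?_, ?_, ?_, ?_, ?_, ?_⟩
  · intro y
    by_cases c : y1.val < y.val ∧ y.val ≤ y2.val
    · refine full3_of_dn (σ := sw γ) (fun x => ?_) (hF y)
      rw [hdn, if_pos c]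
    · refine full3_of_dn (σ := 1) (fun x => ?_) (hF y)
      rw [hdn, if_neg c]; rfl
  · refine Con.single (good_mkf hR) (good_mkf hcomp) ?_
    have hg : γ + 1 ≠ γ + 2 := by clear * -; revert γ; decide
    refine close_mkf hg ?_ ?_ ?_
    · intro y x
      by_cases a : y = y1
      · rw [a, e1]; exact u4.1 x
      by_cases b : y = y2
      · rw [b, e2]; exact d4.1 x
      by_cases c : y1.val < y.val ∧ y.val < y2.val
      · rw [e3 y a b c]; exact sw_cl _ _
      · rw [e4 y a b c]; exact Or.inl rfl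
    · intro y x
      by_cases a : y = y1
      · rw [a, e1]; exact u4.2 x
      by_cases b : y = y2
      · rw [b, e2]; exact d4.2 x
      by_cases c : y1.val < y.val ∧ y.val < y2.val
      · rw [e3 y a b c]; exact sw_cl _ _
      · rw [e4 y a b c]; exact Or.inl rfl
    · intro y x
      rw [hdn]
      split_ifs
      · exact sw_cl _ _
      · exact Or.inl rfl
  · intro y
    by_cases a : y = y1
    · rw [a, e1]; exact ⟨fun _ => h1, fun _ => u2⟩
    by_cases b : y = y2
    · rw [b, e2]; exact ⟨fun _ => h2, fun _ => d2⟩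
    by_cases c : y1.val < y.val ∧ y.val < y2.val
    · rw [e3 y a b c]; exact swr_tn _ _
    · rw [e4 y a b c]
  · intro y a b
    by_cases c : y1.val < y.val ∧ y.val < y2.val
    · rw [e3 y a b c]; exact swr_isX _ _
    · rw [e4 y a b c]
  · rw [e1]; exact u3
  · rw [e2]; exact d3

open Classical in
/-- the rows which are not of type `X` -/
noncomputable def nonX [NeZero n] (R : ZMod n → RowW 3) : Finset (ZMod n) :=
  Finset.univ.filter fun y => ¬ isX (R y)

theorem mem_nonX [NeZero n] {R : ZMod n → RowW 3} {y : ZMod n} : y ∈ nonX R ↔ ¬ isX (R y) := by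
  unfold nonX; simp

theorem even_nonX [NeZero n] {R : ZMod n → RowW 3} (hR : Comp R) (hF : Full R) :
    Even (nonX R).card := by
  classical
  have h1 : ∏ y : ZMod n, lsg (up (R y)) = (∏ y : ZMod n, lsg (dn (R y))) *
      ∏ y : ZMod n, (if isX (R y) then 1 else -1) := by
    rw [← Finset.prod_mul_distrib]
    refine Finset.prod_congr rfl fun y _ => ?_
    rw [lsg_up (hR.1 y) (hF y)]
  have h2 : ∏ y : ZMod n, lsg (up (R y)) = ∏ y : ZMod n, lsg (dn (R y)) := by
    rw [Finset.prod_congr rfl fun y _ => by rw [hR.2 y]]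
    exact Fintype.prod_equiv (Equiv.addRight 1) _ _ (fun _ => rfl)
  have h3 : ∏ y : ZMod n, lsg (dn (R y)) ≠ 0 := by
    rw [Finset.prod_ne_zero_iff]
    intro y _
    unfold lsg sg
    split_ifs <;> decide
  have h4 : ∏ y : ZMod n, (if isX (R y) then (1 : ℤ) else -1) = 1 := by
    rw [h2] at h1
    exact mul_left_cancel₀ h3 (by rw [← h1, mul_one])
  rw [Finset.prod_ite] at h4
  rw [Finset.prod_const_one, one_mul, Finset.prod_const] at h4
  have h5 : (nonX R).card = (Finset.univ.filter fun y => ¬ isX (R y)).card := by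
    unfold nonX; congr
  rw [h5]
  by_contra hodd
  rw [Nat.not_even_iff_odd] at hodd
  rw [hodd.neg_one_pow] at h4
  exact absurd h4 (by decide)

/-- first phase: every letter occurs at most once -/
theorem phase1 (hn : 2 ≤ n) [NeZero n] : ∀ k : ℕ, ∀ R : ZMod n → RowW 3, Comp R → Full R →
    (nonX R).card = k → ∃ R' : ZMod n → RowW 3, Comp R' ∧ Full R' ∧ Con (mkf R) (mkf R') ∧
      ∀ γ y y', ¬ isX (R' y) → ¬ isX (R' y') → tn γ (R' y) → tn γ (R' y') → y = y' := by
  intro k
  induction k using Nat.strong_induction_on with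
  | _ k ih =>
    intro R hR hF hk
    by_cases H : ∀ γ y y', ¬ isX (R y) → ¬ isX (R y') → tn γ (R y) → tn γ (R y') → y = y'
    · exact ⟨R, hR, hF, Con.refl _, H⟩
    · push Not at H
      obtain ⟨γ, y1, y2, hx1, hx2, ht1, ht2, h12⟩ := H
      obtain ⟨R', k1, k2, k3, k4, k5, k6, k7⟩ := toggle hn hR hF γ h12 ht1 ht2
      have hlt : (nonX R').card < k := by
        rw [← hk]
        apply Finset.card_lt_card
        rw [Finset.ssubset_iff_of_subset]
        · exact ⟨y1, mem_nonX.2 hx1, fun h => (mem_nonX.1 h) (k6.2 hx1)⟩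
        · intro y hy
          rw [mem_nonX] at hy ⊢
          by_cases a : y = y1
          · rw [a]; exact hx1
          by_cases b : y = y2
          · rw [b]; exact hx2
          rwa [k5 y a b] at hy
      obtain ⟨R'', l1, l2, l3, l4⟩ := ih _ hlt R' k1 k2 rfl
      exact ⟨R'', l1, l2, k3.trans l3, l4⟩

/-- second phase: no rows of type `X` -/
theorem phase2 (hn : 2 ≤ n) (hev : Even n) [NeZero n] (p : Fin 3) :
    ∀ k : ℕ, ∀ R : ZMod n → RowW 3, Comp R → Full R → (nonX R).card + k = n →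
      (∀ y y', ¬ tn p (R y) → ¬ tn p (R y') → y = y') →
      ∃ R' : ZMod n → RowW 3, Comp R' ∧ Full R' ∧ Con (mkf R) (mkf R') ∧ (∀ y, ¬ isX (R' y)) ∧
        (∀ y y', ¬ tn p (R' y) → ¬ tn p (R' y') → y = y') := by
  intro k
  induction k using Nat.strong_induction_on with
  | _ k ih =>
    intro R hR hF hk hp
    by_cases H : ∀ y, ¬ isX (R y)
    · exact ⟨R, hR, hF, Con.refl _, H, hp⟩
    · push Not at H
      obtain ⟨y1, hy1⟩ := H
      have hev2 := even_nonX hR hF
      have hcard : (Finset.univ \ nonX R).card = k := by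
        rw [Finset.card_univ_sdiff, ZMod.card]; omega
      have hmem : ∀ y, y ∈ Finset.univ \ nonX R ↔ isX (R y) := by
        intro y
        rw [Finset.mem_sdiff, mem_nonX]
        simp
      have hk2 : 1 < k := by
        have h0 : 0 < k := by
          rw [← hcard]; exact Finset.card_pos.2 ⟨y1, (hmem y1).2 hy1⟩
        obtain ⟨a, ha⟩ := hev
        obtain ⟨b, hb⟩ := hev2
        omega
      rw [← hcard] at hk2
      obtain ⟨y2, hy2, h12⟩ := Finset.exists_mem_ne hk2 y1
      rw [hmem] at hy2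
      obtain ⟨R', k1, k2, k3, k4, k5, k6, k7⟩ :=
        toggle hn hR hF p h12.symm (tn_of_isX hy1 p) (tn_of_isX hy2 p)
      have hlt : (nonX R).card < (nonX R').card := by
        apply Finset.card_lt_card
        rw [Finset.ssubset_iff_of_subset]
        · exact ⟨y1, mem_nonX.2 fun h => (k6.1 h) hy1, fun h => (mem_nonX.1 h) hy1⟩
        · intro y hy
          rw [mem_nonX] at hy ⊢
          have a : y ≠ y1 := fun h => hy (by rw [h]; exact hy1)
          have b : y ≠ y2 := fun h => hy (by rw [h]; exact hy2)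
          rwa [k5 y a b]
      have hle : (nonX R').card ≤ n := by
        have := Finset.card_le_univ (nonX R')
        rwa [ZMod.card] at this
      obtain ⟨R'', l1, l2, l3, l4, l5⟩ := ih (n - (nonX R').card) (by omega) R' k1 k2 (by omega)
        (fun y y' h h' => hp y y' (by rwa [k4] at h) (by rwa [k4] at h'))
      exact ⟨R'', l1, l2, k3.trans l3, l4, l5⟩

/-- a letter such that at most one row does not have it -/
theorem exists_letter [NeZero n] {R : ZMod n → RowW 3} (hR : Comp R) (hF : Full R)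
    (h : ∀ γ y y', ¬ isX (R y) → ¬ isX (R y') → tn γ (R y) → tn γ (R y') → y = y') :
    ∃ p, ∀ y y', ¬ tn p (R y) → ¬ tn p (R y') → y = y' := by
  by_cases H : ∀ y, isX (R y)
  · exact ⟨0, fun y y' h' _ => absurd (tn_of_isX (H y) 0) h'⟩
  push Not at H
  obtain ⟨y0, hy0⟩ := H
  obtain ⟨p, hp⟩ := exists_tn (hR.1 y0) (hF y0) hy0
  refine ⟨p, fun y y' hy hy' => ?_⟩
  by_contra hne
  have hx : ¬ isX (R y) := fun h => hy (tn_of_isX h p)
  have hx' : ¬ isX (R y') := fun h => hy' (tn_of_isX h p)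
  obtain ⟨q, hq⟩ := exists_tn (hR.1 y) (hF y) hx
  obtain ⟨q', hq'⟩ := exists_tn (hR.1 y') (hF y') hx'
  have t0 : tn p (R y0) := (hp p).2 rfl
  have t1 : tn q (R y) := (hq q).2 rfl
  have t2 : tn q' (R y') := (hq' q').2 rfl
  have hqp : q ≠ p := fun h => hy (by rw [← h]; exact t1)
  have hqp' : q' ≠ p := fun h => hy' (by rw [← h]; exact t2)
  have hqq : q ≠ q' := fun e => hne (h q y y' hx hx' t1 (by rw [e]; exact t2))
  have h01 : y0 ≠ y := fun e => hy (by rw [← e]; exact t0)
  have h02 : y0 ≠ y' := fun e => hy' (by rw [← e]; exact t0)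
  have key : ∀ p q q' z : Fin 3, q ≠ p → q' ≠ p → q ≠ q' → z = p ∨ z = q ∨ z = q' := by decide
  have hcard : nonX R = {y0, y, y'} := by
    ext z
    rw [mem_nonX]
    simp only [Finset.mem_insert, Finset.mem_singleton]
    constructor
    · intro hz
      obtain ⟨γ, hγ⟩ := exists_tn (hR.1 z) (hF z) hz
      have t3 : tn γ (R z) := (hγ γ).2 rfl
      rcases key p q q' γ hqp hqp' hqq with e | e | e
      · left; exact h p z y0 hz hy0 (by rw [← e]; exact t3) t0
      · right; left; exact h q z y hz hx (by rw [← e]; exact t3) t1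
      · right; right; exact h q' z y' hz hx' (by rw [← e]; exact t3) t2
    · rintro (e | e | e)
      · rw [e]; exact hy0
      · rw [e]; exact hx
      · rw [e]; exact hx'
  have hev := even_nonX hR hF
  rw [hcard, Finset.card_eq_three.2 ⟨y0, y, y', h01, h02, hne, rfl⟩] at hev
  exact absurd hev (by decide)

/-- third phase -/
theorem phase3 [NeZero n] {R : ZMod n → RowW 3} (hR : Comp R) (hF : Full R)
    (hX : ∀ y, ¬ isX (R y)) {p : Fin 3} (hp : ∀ y y', ¬ tn p (R y) → ¬ tn p (R y') → y = y') :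
    Con (mkf R) (cst id) := by
  obtain ⟨γ, hγ⟩ : ∃ γ, ∀ y, ¬ tn γ (R y) := by
    by_cases H : ∃ y0, ¬ tn p (R y0)
    · obtain ⟨y0, hy0⟩ := H
      obtain ⟨z, hz⟩ := exists_tn (hR.1 y0) (hF y0) (hX y0)
      have key : ∀ p z : Fin 3, ∃ γ, γ ≠ p ∧ γ ≠ z := by decide
      obtain ⟨γ, h1, h2⟩ := key p z
      refine ⟨γ, fun y hy => ?_⟩
      obtain ⟨w, hw⟩ := exists_tn (hR.1 y) (hF y) (hX y)
      have e1 : γ = w := (hw γ).1 hy
      have h3 : ¬ tn p (R y) := by
        rw [hw p, ← e1]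
        exact h1.symm
      have h4 := hp y y0 h3 hy0
      rw [h4] at hy
      exact h2 ((hz γ).1 hy)
    · push Not at H
      have key : ∀ p : Fin 3, ∃ γ, γ ≠ p := by decide
      obtain ⟨γ, h1⟩ := key p
      refine ⟨γ, fun y hy => ?_⟩
      obtain ⟨w, hw⟩ := exists_tn (hR.1 y) (hF y) (hX y)
      exact h1 (((hw γ).1 hy).trans ((hw p).1 (H y)).symm)
  have hre := fun y => re_prop (hR.1 y) (hF y) (hγ y)
  have hcomp : Comp (fun y => re γ (R y)) := by
    refine ⟨fun y => (hre y).1, fun y => ?_⟩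
    funext x
    rw [(hre y).2.2.2 x, (hre (y + 1)).2.2.1 x, hR.2 y]
  have hg : γ + 1 ≠ γ + 2 ∧ γ + 2 ≠ γ + 1 := by clear * -; revert γ; decide
  refine (Con.single (good_mkf hR) (good_mkf hcomp) ?_).trans
    (con_of_absent hcomp (c := γ + 1) (y0 := 0) ?_)
  · refine close_mkf hg.1 (fun y => (hre y).2.1.1) (fun y => (hre y).2.1.2) ?_
    intro y x
    rw [(hre y).2.2.1 x]
    split_ifs with h
    · exact Or.inr (Or.inl ⟨h, rfl⟩)
    · exact Or.inl rfl
  · intro x
    rw [(hre 0).2.2.1 x]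
    split_ifs with h
    · exact hg.2
    · exact h

theorem erg_three (hn : 2 ≤ n) (hev : Even n) : Erg 3 n := by
  have hn0 : NeZero n := ⟨by omega⟩
  apply erg_of_con
  intro R hR
  by_cases H : ∃ (c : Fin 3) (y0 : ZMod n), ∀ x, dn (R y0) x ≠ c
  · obtain ⟨c, y0, h⟩ := H
    exact con_of_absent hR h
  push Not at H
  have hF : Full R := by
    intro y
    have h := fun c => H c y
    have key : ∀ a b c : Fin 3, (∀ z, a = z ∨ b = z ∨ c = z) → a ≠ b ∧ b ≠ c ∧ a ≠ c := by decide
    apply key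
    intro z
    obtain ⟨x, hx⟩ := h z
    fin_cases x
    · exact Or.inl hx
    · exact Or.inr (Or.inl hx)
    · exact Or.inr (Or.inr hx)
  obtain ⟨R1, a1, a2, a3, a4⟩ := phase1 hn _ R hR hF rfl
  obtain ⟨p, hp⟩ := exists_letter a1 a2 a4
  have hle : (nonX R1).card ≤ n := by
    have := Finset.card_le_univ (nonX R1)
    rwa [ZMod.card] at this
  obtain ⟨R2, b1, b2, b3, b4, b5⟩ := phase2 hn hev p (n - (nonX R1).card) R1 a1 a2 (by omega) hp
  exact (a3.trans b3).trans (phase3 b1 b2 b4 b5)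

end Pool.Agent.KS6_67.Kag
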