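import Pool.Agent.KS6_67.Kag.Erg

/-!
# Finite checks for rows of three cells
-/

set_option autoImplicit false

namespace Pool.Agent.KS6_67.Kag

/-- the row `(u, w)` of three cells -/
def R3 (a b c a' b' c' : Fin 3) : RowW 3 := (fun x => ![a, b, c] x, fun x => ![a', b', c'] x)

theorem eq_R3 (r : RowW 3) : r = R3 (r.1 0) (r.1 1) (r.1 2) (r.2 0) (r.2 1) (r.2 2) := by
  refine Prod.ext ?_ ?_
  · funext x
    fin_cases x <;> rfl
  · funext x
    fin_cases x <;> rfl

instance (r : RowW 3) : Decidable (IsRow r) := by unfold IsRow; infer_instance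

/-- the edges of colour `γ` of the row are opposite -/
def tn (γ : Fin 3) (r : RowW 3) : Prop := ∀ x, r.1 x = γ ↔ r.2 (x + 1) = γ

instance (γ : Fin 3) (r : RowW 3) : Decidable (tn γ r) := by unfold tn; infer_instance

/-- opposite edges of the row have the same colour -/
def isX (r : RowW 3) : Prop := ∀ x, r.1 x = r.2 (x + 1)

instance (r : RowW 3) : Decidable (isX r) := by unfold isX; infer_instance

/-- the three vertical edges below the row have different colours -/
def Full3 (r : RowW 3) : Prop := dn r 0 ≠ dn r 1 ∧ dn r 1 ≠ dn r 2 ∧ dn r 0 ≠ dn r 2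

instance (r : RowW 3) : Decidable (Full3 r) := by unfold Full3; infer_instance

/-- the interchange of the two colours different from `γ` -/
def sw (γ : Fin 3) : Equiv.Perm (Fin 3) := Equiv.swap (γ + 1) (γ + 2)

/-- closeness of rows -/
def RCl (γ : Fin 3) (r r' : RowW 3) : Prop :=
  (∀ x, Cl (γ + 1) (γ + 2) (r.1 x) (r'.1 x)) ∧ (∀ x, Cl (γ + 1) (γ + 2) (r.2 x) (r'.2 x))

instance (γ : Fin 3) (r r' : RowW 3) : Decidable (RCl γ r r') := by unfold RCl; infer_instance

/-- the property of the first exchange -/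
def UpP (γ : Fin 3) (r r' : RowW 3) : Prop :=
  IsRow r' ∧ tn γ r' ∧ (isX r' ↔ ¬ isX r) ∧ RCl γ r r' ∧ (∀ x, dn r' x = dn r x) ∧
    (∀ x, up r' x = sw γ (up r x))

instance (γ : Fin 3) (r r' : RowW 3) : Decidable (UpP γ r r') := by unfold UpP; infer_instance

/-- the property of the second exchange -/
def DnP (γ : Fin 3) (r r' : RowW 3) : Prop :=
  IsRow r' ∧ tn γ r' ∧ (isX r' ↔ ¬ isX r) ∧ RCl γ r r' ∧ (∀ x, dn r' x = sw γ (dn r x)) ∧
    (∀ x, up r' x = up r x)

instance (γ : Fin 3) (r r' : RowW 3) : Decidable (DnP γ r r') := by unfold DnP; infer_instance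

/-- the property of the third exchange -/
def ReP (γ : Fin 3) (r r' : RowW 3) : Prop :=
  IsRow r' ∧ RCl γ r r' ∧ (∀ x, dn r' x = if dn r x = γ + 1 then γ + 2 else dn r x) ∧
    (∀ x, up r' x = if up r x = γ + 1 then γ + 2 else up r x)

instance (γ : Fin 3) (r r' : RowW 3) : Decidable (ReP γ r r') := by unfold ReP; infer_instance

/-- exchange of the two colours on the part of the row which ends above -/
def tu (γ : Fin 3) (r : RowW 3) : RowW 3 :=
  (fun x => if r.2 x = γ then sw γ (r.1 x) else r.1 x,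
    fun x => if r.1 x = γ then sw γ (r.2 x) else r.2 x)

/-- exchange of the two colours on the part of the row which ends below -/
def td (γ : Fin 3) (r : RowW 3) : RowW 3 :=
  (fun x => if r.2 (x - 1) = γ then sw γ (r.1 x) else r.1 x,
    fun x => if r.1 (x + 1) = γ then sw γ (r.2 x) else r.2 x)

/-- exchange on the part of the row which ends in vertical edges of colour `γ + 1` -/
def re (γ : Fin 3) (r : RowW 3) : RowW 3 :=
  (fun x => if (r.1 x = γ + 2 ∧ (dn r x = γ + 1 ∨ up r x = γ + 1)) ∨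
      (r.1 x = γ + 1 ∧ dn r x = γ ∧ up r x = γ) then sw γ (r.1 x) else r.1 x,
    fun x => if (r.2 x = γ + 2 ∧ (up r x = γ + 1 ∨ dn r (x + 1) = γ + 1)) ∨
      (r.2 x = γ + 1 ∧ up r x = γ ∧ dn r (x + 1) = γ) then sw γ (r.2 x) else r.2 x)

theorem tu_key : ∀ γ a b c a' b' c' : Fin 3, IsRow (R3 a b c a' b' c') →
    Full3 (R3 a b c a' b' c') → tn γ (R3 a b c a' b' c') →
    UpP γ (R3 a b c a' b' c') (tu γ (R3 a b c a' b' c')) := by
  decide +kernel

theorem td_key : ∀ γ a b c a' b' c' : Fin 3, IsRow (R3 a b c a' b' c') →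
    Full3 (R3 a b c a' b' c') → tn γ (R3 a b c a' b' c') →
    DnP γ (R3 a b c a' b' c') (td γ (R3 a b c a' b' c')) := by
  decide +kernel

theorem re_key : ∀ γ a b c a' b' c' : Fin 3, IsRow (R3 a b c a' b' c') →
    Full3 (R3 a b c a' b' c') → ¬ tn γ (R3 a b c a' b' c') →
    ReP γ (R3 a b c a' b' c') (re γ (R3 a b c a' b' c')) := by
  decide +kernel

theorem tu_prop {r : RowW 3} {γ : Fin 3} (hr : IsRow r) (hf : Full3 r) (h : tn γ r) :
    UpP γ r (tu γ r) := by
  rw [eq_R3 r] at hr hf h ⊢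
  exact tu_key _ _ _ _ _ _ _ hr hf h

theorem td_prop {r : RowW 3} {γ : Fin 3} (hr : IsRow r) (hf : Full3 r) (h : tn γ r) :
    DnP γ r (td γ r) := by
  rw [eq_R3 r] at hr hf h ⊢
  exact td_key _ _ _ _ _ _ _ hr hf h

theorem re_prop {r : RowW 3} {γ : Fin 3} (hr : IsRow r) (hf : Full3 r) (h : ¬ tn γ r) :
    ReP γ r (re γ r) := by
  rw [eq_R3 r] at hr hf h ⊢
  exact re_key _ _ _ _ _ _ _ hr hf h

/-- the sign of a level -/
def lsg (s : ZMod 3 → Fin 3) : ℤ := sg (s 0) (s 1) (s 2)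

theorem type_key : ∀ a b c a' b' c' : Fin 3, IsRow (R3 a b c a' b' c') →
    Full3 (R3 a b c a' b' c') → ¬ isX (R3 a b c a' b' c') →
      (∃ γ, ∀ γ', tn γ' (R3 a b c a' b' c') ↔ γ' = γ) := by
  decide +kernel

theorem sign_key : ∀ a b c a' b' c' : Fin 3, IsRow (R3 a b c a' b' c') →
    Full3 (R3 a b c a' b' c') → lsg (up (R3 a b c a' b' c')) =
      lsg (dn (R3 a b c a' b' c')) * (if isX (R3 a b c a' b' c') then 1 else -1) := by
  decide +kernel

theorem tn_of_isX {r : RowW 3} (h : isX r) (γ : Fin 3) : tn γ r := by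
  intro x
  rw [h x]

theorem exists_tn {r : RowW 3} (hr : IsRow r) (hf : Full3 r) (h : ¬ isX r) :
    ∃ γ, ∀ γ', tn γ' r ↔ γ' = γ := by
  rw [eq_R3 r] at hr hf h ⊢
  exact type_key _ _ _ _ _ _ hr hf h

theorem lsg_up {r : RowW 3} (hr : IsRow r) (hf : Full3 r) :
    lsg (up r) = lsg (dn r) * (if isX r then 1 else -1) := by
  have key := sign_key (r.1 0) (r.1 1) (r.1 2) (r.2 0) (r.2 1) (r.2 2)
  rw [← eq_R3 r] at key
  exact key hr hf

end Pool.Agent.KS6_67.Kag
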