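import Pool.Agent.KS6_67.Kag.NonErg
import Pool.Agent.KS6_67.Kag.Erg3

/-!
# Classification
-/

set_option autoImplicit false

namespace Pool.Agent.KS6_67.Kag

theorem neg_le {m n : ℕ} [NeZero m] [NeZero n] (hm : 3 ≤ m) (hmn : m ≤ n)
    (h : ¬ (m = 3 ∧ Even n)) : Neg m n := by
  rcases (by omega : m = 3 ∨ m = 4 ∨ 5 ≤ m) with h3 | h4 | h5
  · subst h3
    exact neg_three hmn fun hn => h ⟨rfl, hn⟩
  · subst h4
    exact neg_four hmn
  · exact neg_five h5 hmn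

/-- the sizes of the ergodic lattices -/
def Sizes (m n : ℕ) : Prop := m = 2 ∨ n = 2 ∨ (m = 3 ∧ Even n) ∨ (n = 3 ∧ Even m)

theorem neg_of_not {m n : ℕ} [NeZero m] [NeZero n] (hm : 2 ≤ m) (hn : 2 ≤ n)
    (h : ¬ Sizes m n) : Neg m n := by
  unfold Sizes at h
  push Not at h
  obtain ⟨h1, h2, h3, h4⟩ := h
  rcases le_total m n with hmn | hmn
  · exact neg_le (by omega) hmn fun hh => h3 hh.1 hh.2
  · exact (neg_le (by omega) hmn fun hh => h4 hh.1 hh.2).tr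

theorem erg_of {m n : ℕ} (hm : 2 ≤ m) (hn : 2 ≤ n) (h : Sizes m n) : Erg m n := by
  have hm0 : NeZero m := ⟨by omega⟩
  have hn0 : NeZero n := ⟨by omega⟩
  rcases h with h | h | ⟨h, h'⟩ | ⟨h, h'⟩
  · subst h; exact erg_two
  · subst h; exact erg_comm.1 erg_two
  · subst h; exact erg_three hn h'
  · subst h; exact erg_comm.1 (erg_three hm h')

theorem erg_iff_sizes {m n : ℕ} (hm : 2 ≤ m) (hn : 2 ≤ n) : Erg m n ↔ Sizes m n := by
  have hm0 : NeZero m := ⟨by omega⟩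
  have hn0 : NeZero n := ⟨by omega⟩
  refine ⟨fun h => ?_, erg_of hm hn⟩
  by_contra hs
  exact (neg_of_not hm hn hs).not_erg h

theorem erg_iff_eps {m n : ℕ} [NeZero m] [NeZero n] (hm : 2 ≤ m) (hn : 2 ≤ n) :
    Erg m n ↔ ∀ f : X m n → Fin 3 → Fin 3, Good f → eps f = 1 := by
  refine ⟨fun h f hf => h.eps_eq_one hf, fun h => ?_⟩
  by_contra hs
  rw [erg_iff_sizes hm hn] at hs
  obtain ⟨f, hf, he⟩ := neg_of_not hm hn hs
  rw [h f hf] at he
  exact absurd he (by decide)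

end Pool.Agent.KS6_67.Kag
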