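import Pool.Agent.KS6_67.Kag.Rows

/-!
# Closed sequences of rows of sign `-1`
-/

set_option autoImplicit false

namespace Pool.Agent.KS6_67.Kag

instance {m : ℕ} [NeZero m] (r : RowW m) : Decidable (IsRow r) := by unfold IsRow; infer_instance

/-! ### `m = 3` and `m = 4` -/

/-- a row of three cells -/
def r3 (a b c a' b' c' : Fin 3) : RowW 3 := (![a, b, c], ![a', b', c'])

/-- a row of four cells -/
def r4 (a b c d a' b' c' d' : Fin 3) : RowW 4 := (![a, b, c, d], ![a', b', c', d'])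

/-- a state of three cells -/
def v3 (a b c : Fin 3) : ZMod 3 → Fin 3 := ![a, b, c]

/-- a state of four cells -/
def v4 (a b c d : Fin 3) : ZMod 4 → Fin 3 := ![a, b, c, d]

theorem path3_loop : Path (m := 3) (v3 0 1 2) (v3 0 1 2) 2 1 := by
  have h1 : Path (m := 3) (v3 0 1 2) (v3 0 2 1) 1 1 :=
    Path.single (r := r3 1 0 0 2 1 2) (by decide +kernel) (by funext x; revert x; decide +kernel)
      (by funext x; revert x; decide +kernel) (by decide +kernel)
  have h2 : Path (m := 3) (v3 0 2 1) (v3 0 1 2) 1 1 :=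
    Path.single (r := r3 2 0 0 1 2 1) (by decide +kernel) (by funext x; revert x; decide +kernel)
      (by funext x; revert x; decide +kernel) (by decide +kernel)
  exact h1.append h2

theorem path3_odd : Path (m := 3) (v3 0 1 2) (v3 0 1 2) 3 (-1) := by
  have h1 : Path (m := 3) (v3 0 1 2) (v3 0 2 1) 1 1 :=
    Path.single (r := r3 1 0 0 2 1 2) (by decide +kernel) (by funext x; revert x; decide +kernel)
      (by funext x; revert x; decide +kernel) (by decide +kernel)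
  have h2 : Path (m := 3) (v3 0 2 1) (v3 1 0 2) 1 (-1) :=
    Path.single (r := r3 2 1 0 0 2 1) (by decide +kernel) (by funext x; revert x; decide +kernel)
      (by funext x; revert x; decide +kernel) (by decide +kernel)
  have h3 : Path (m := 3) (v3 1 0 2) (v3 0 1 2) 1 1 :=
    Path.single (r := r3 2 2 1 1 0 0) (by decide +kernel) (by funext x; revert x; decide +kernel)
      (by funext x; revert x; decide +kernel) (by decide +kernel)
  exact (h1.append h2).append h3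

theorem path4_loop : Path (m := 4) (v4 0 1 2 2) (v4 0 1 2 2) 2 1 := by
  have h1 : Path (m := 4) (v4 0 1 2 2) (v4 1 0 2 2) 1 1 :=
    Path.single (r := r4 2 2 0 0 0 1 1 1) (by decide +kernel) (by funext x; revert x; decide +kernel)
      (by funext x; revert x; decide +kernel) (by decide +kernel)
  have h2 : Path (m := 4) (v4 1 0 2 2) (v4 0 1 2 2) 1 1 :=
    Path.single (r := r4 2 2 1 1 1 0 0 0) (by decide +kernel) (by funext x; revert x; decide +kernel)
      (by funext x; revert x; decide +kernel) (by decide +kernel)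
  exact h1.append h2

theorem path4_even : Path (m := 4) (v4 0 1 2 2) (v4 0 1 2 2) 4 (-1) := by
  have h1 : Path (m := 4) (v4 0 1 2 2) (v4 0 2 2 1) 1 1 :=
    Path.single (r := r4 1 0 0 0 2 1 1 2) (by decide +kernel) (by funext x; revert x; decide +kernel)
      (by funext x; revert x; decide +kernel) (by decide +kernel)
  have h2 : Path (m := 4) (v4 0 2 2 1) (v4 0 2 1 2) 1 1 :=
    Path.single (r := r4 2 0 0 0 1 1 2 1) (by decide +kernel) (by funext x; revert x; decide +kernel)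
      (by funext x; revert x; decide +kernel) (by decide +kernel)
  have h3 : Path (m := 4) (v4 0 2 1 2) (v4 1 0 2 2) 1 (-1) :=
    Path.single (r := r4 2 1 0 0 0 2 1 1) (by decide +kernel) (by funext x; revert x; decide +kernel)
      (by funext x; revert x; decide +kernel) (by decide +kernel)
  have h4 : Path (m := 4) (v4 1 0 2 2) (v4 0 1 2 2) 1 1 :=
    Path.single (r := r4 2 2 1 1 1 0 0 0) (by decide +kernel) (by funext x; revert x; decide +kernel)
      (by funext x; revert x; decide +kernel) (by decide +kernel)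
  exact ((h1.append h2).append h3).append h4

theorem path4_odd : Path (m := 4) (v4 0 1 2 2) (v4 0 1 2 2) 5 (-1) := by
  have h1 : Path (m := 4) (v4 0 1 2 2) (v4 0 2 2 1) 1 1 :=
    Path.single (r := r4 1 0 0 0 2 1 1 2) (by decide +kernel) (by funext x; revert x; decide +kernel)
      (by funext x; revert x; decide +kernel) (by decide +kernel)
  have h2 : Path (m := 4) (v4 0 2 2 1) (v4 2 2 0 1) 1 1 :=
    Path.single (r := r4 1 1 1 0 0 0 2 2) (by decide +kernel) (by funext x; revert x; decide +kernel)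
      (by funext x; revert x; decide +kernel) (by decide +kernel)
  have h3 : Path (m := 4) (v4 2 2 0 1) (v4 2 1 0 2) 1 1 :=
    Path.single (r := r4 0 0 1 0 1 2 2 1) (by decide +kernel) (by funext x; revert x; decide +kernel)
      (by funext x; revert x; decide +kernel) (by decide +kernel)
  have h4 : Path (m := 4) (v4 2 1 0 2) (v4 1 2 0 2) 1 1 :=
    Path.single (r := r4 0 0 2 0 2 1 1 1) (by decide +kernel) (by funext x; revert x; decide +kernel)
      (by funext x; revert x; decide +kernel) (by decide +kernel)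
  have h5 : Path (m := 4) (v4 1 2 0 2) (v4 0 1 2 2) 1 (-1) :=
    Path.single (r := r4 2 0 1 1 1 2 0 0) (by decide +kernel) (by funext x; revert x; decide +kernel)
      (by funext x; revert x; decide +kernel) (by decide +kernel)
  exact (((h1.append h2).append h3).append h4).append h5

theorem neg_three {n : ℕ} [NeZero n] (h3 : 3 ≤ n) (hn : ¬ Even n) : Neg 3 n := by
  have hn' := Nat.not_even_iff.1 hn
  have h := path3_odd.append (path3_loop.iter ((n - 3) / 2))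
  rw [show 3 + 2 * ((n - 3) / 2) = n by omega, mul_one] at h
  exact h.neg (by omega)

theorem neg_four {n : ℕ} [NeZero n] (h4 : 4 ≤ n) : Neg 4 n := by
  rcases Nat.even_or_odd n with hn | hn
  · have hn' := Nat.even_iff.1 hn
    have h := path4_even.append (path4_loop.iter ((n - 4) / 2))
    rw [show 4 + 2 * ((n - 4) / 2) = n by omega, mul_one] at h
    exact h.neg (by omega)
  · have hn' := Nat.odd_iff.1 hn
    have h := path4_odd.append (path4_loop.iter ((n - 5) / 2))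
    rw [show 5 + 2 * ((n - 5) / 2) = n by omega, mul_one] at h
    exact h.neg (by omega)

/-! ### `m ≥ 5` -/

section five

variable {m : ℕ}

theorem five_ne (hm : 5 ≤ m) {i j : ℕ} (hi : i < 5) (hj : j < 5) (hij : i ≠ j) :
    (i : ZMod m) ≠ (j : ZMod m) := by
  intro h
  have h1 := congrArg ZMod.val h
  rw [ZMod.val_natCast_of_lt (by omega), ZMod.val_natCast_of_lt (by omega)] at h1
  exact hij h1

theorem five_all (hm : 5 ≤ m) : ((0 : ZMod m) ≠ 1 ∧ (0 : ZMod m) ≠ 2 ∧ (0 : ZMod m) ≠ 3 ∧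
    (0 : ZMod m) ≠ 4) ∧ ((1 : ZMod m) ≠ 2 ∧ (1 : ZMod m) ≠ 3 ∧ (1 : ZMod m) ≠ 4) ∧
    ((2 : ZMod m) ≠ 3 ∧ (2 : ZMod m) ≠ 4) ∧ (3 : ZMod m) ≠ 4 := by
  have h := fun (i j : ℕ) (hi : i < 5) (hj : j < 5) (hij : i ≠ j) => five_ne hm hi hj hij
  refine ⟨⟨?_, ?_, ?_, ?_⟩, ⟨?_, ?_, ?_⟩, ⟨?_, ?_⟩, ?_⟩
  · simpa using h 0 1 (by omega) (by omega) (by omega)
  · simpa using h 0 2 (by omega) (by omega) (by omega)
  · simpa using h 0 3 (by omega) (by omega) (by omega)
  · simpa using h 0 4 (by omega) (by omega) (by omega)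
  · simpa using h 1 2 (by omega) (by omega) (by omega)
  · simpa using h 1 3 (by omega) (by omega) (by omega)
  · simpa using h 1 4 (by omega) (by omega) (by omega)
  · simpa using h 2 3 (by omega) (by omega) (by omega)
  · simpa using h 2 4 (by omega) (by omega) (by omega)
  · simpa using h 3 4 (by omega) (by omega) (by omega)

/-- the function with the given values at `0, …, 4` and the value `c` everywhere else -/
def pw {α : Type} (a0 a1 a2 a3 a4 c : α) (x : ZMod m) : α :=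
  if x = 0 then a0 else if x = 1 then a1 else if x = 2 then a2 else if x = 3 then a3 else
    if x = 4 then a4 else c

theorem pw_shift (hm : 5 ≤ m) {α : Type} (b0 b1 b2 b3 e : α) (x : ZMod m) :
    pw b0 b1 b2 b3 e e (x - 1) = pw e b0 b1 b2 b3 e x := by
  obtain ⟨⟨h01, h02, h03, h04⟩, ⟨h12, h13, h14⟩, ⟨h23, h24⟩, h34⟩ := five_all hm
  have e0 : x - 1 = 0 ↔ x = 1 := sub_eq_zero
  have e1 : x - 1 = 1 ↔ x = 2 := by rw [sub_eq_iff_eq_add]; norm_num
  have e2 : x - 1 = 2 ↔ x = 3 := by rw [sub_eq_iff_eq_add]; norm_num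
  have e3 : x - 1 = 3 ↔ x = 4 := by rw [sub_eq_iff_eq_add]; norm_num
  unfold pw
  rw [ite_self]
  simp only [e0, e1, e2, e3]
  by_cases x0 : x = 0
  · subst x0; simp [h01, h02, h03, h04]
  · simp [x0]

theorem pw_map2 {α β γ : Type} (g : α → β → γ) (a0 a1 a2 a3 a4 c : α) (b0 b1 b2 b3 b4 e : β)
    (x : ZMod m) : g (pw a0 a1 a2 a3 a4 c x) (pw b0 b1 b2 b3 b4 e x) =
      pw (g a0 b0) (g a1 b1) (g a2 b2) (g a3 b3) (g a4 b4) (g c e) x := by
  unfold pw
  split_ifs <;> rfl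

theorem pw_all {α : Type} {P : α → Prop} {a0 a1 a2 a3 a4 c : α} (h0 : P a0) (h1 : P a1) (h2 : P a2)
    (h3 : P a3) (h4 : P a4) (h5 : P c) (x : ZMod m) : P (pw a0 a1 a2 a3 a4 c x) := by
  unfold pw
  split_ifs <;> assumption

theorem pw_prod [NeZero m] (hm : 5 ≤ m) (a0 a1 a2 a3 a4 : ℤ) :
    ∏ x : ZMod m, pw a0 a1 a2 a3 a4 1 x = a0 * a1 * a2 * a3 * a4 := by
  obtain ⟨⟨h01, h02, h03, h04⟩, ⟨h12, h13, h14⟩, ⟨h23, h24⟩, h34⟩ := five_all hm
  have h : ∀ x : ZMod m, pw a0 a1 a2 a3 a4 1 x =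
      (if x = 0 then a0 else 1) * (if x = 1 then a1 else 1) * (if x = 2 then a2 else 1) *
        (if x = 3 then a3 else 1) * (if x = 4 then a4 else 1) := by
    intro x
    unfold pw
    by_cases x0 : x = 0
    · subst x0; simp [h01, h02, h03, h04]
    by_cases x1 : x = 1
    · subst x1; simp [h01.symm, h12, h13, h14]
    by_cases x2 : x = 2
    · subst x2; simp [h02.symm, h12.symm, h23, h24]
    by_cases x3 : x = 3
    · subst x3; simp [h03.symm, h13.symm, h23.symm, h34]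
    simp [x0, x1, x2, x3]
  rw [Finset.prod_congr rfl fun x _ => h x, Finset.prod_mul_distrib, Finset.prod_mul_distrib,
    Finset.prod_mul_distrib, Finset.prod_mul_distrib]
  simp only [Finset.prod_ite_eq', Finset.mem_univ, if_true]

/-- the sign of the two vertices of a cell -/
def sgc (a b b' : Fin 3) : ℤ := sg a b (-(a + b)) * sg a b' (-(a + b'))

theorem sgc_self (a b : Fin 3) : sgc a b b = 1 := by revert a b; decide

/-- the list of the data of a row which is constant outside the five columns `0, …, 4` -/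
theorem blk [NeZero m] (hm : 5 ≤ m) (a0 a1 a2 a3 a4 c b0 b1 b2 b3 e : Fin 3)
    (hv : (a0 ≠ b0 ∧ a0 ≠ e) ∧ (a1 ≠ b1 ∧ a1 ≠ b0) ∧ (a2 ≠ b2 ∧ a2 ≠ b1) ∧ (a3 ≠ b3 ∧ a3 ≠ b2) ∧
      (a4 ≠ e ∧ a4 ≠ b3) ∧ c ≠ e) :
    Path (m := m) (pw (-(a0 + e)) (-(a1 + b0)) (-(a2 + b1)) (-(a3 + b2)) (-(a4 + b3)) (-(c + e)))
      (pw (-(a0 + b0)) (-(a1 + b1)) (-(a2 + b2)) (-(a3 + b3)) (-(a4 + e)) (-(c + e))) 1
      (sgc a0 e b0 * sgc a1 b0 b1 * sgc a2 b1 b2 * sgc a3 b2 b3 * sgc a4 b3 e) := by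
  obtain ⟨⟨v0, v0'⟩, ⟨v1, v1'⟩, ⟨v2, v2'⟩, ⟨v3, v3'⟩, ⟨v4, v4'⟩, v5⟩ := hv
  refine Path.single (r := (pw a0 a1 a2 a3 a4 c, pw b0 b1 b2 b3 e e)) ?_ ?_ ?_ ?_
  · intro x
    show pw a0 a1 a2 a3 a4 c x ≠ pw b0 b1 b2 b3 e e x ∧
      pw a0 a1 a2 a3 a4 c x ≠ pw b0 b1 b2 b3 e e (x - 1)
    rw [pw_shift hm]
    constructor
    · unfold pw; split_ifs <;> assumption
    · unfold pw; split_ifs <;> assumption
  · funext x
    show -(pw a0 a1 a2 a3 a4 c x + pw b0 b1 b2 b3 e e (x - 1)) = _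
    rw [pw_shift hm]
    exact pw_map2 (fun a b => -(a + b)) _ _ _ _ _ _ _ _ _ _ _ _ x
  · funext x
    show -(pw a0 a1 a2 a3 a4 c x + pw b0 b1 b2 b3 e e x) = _
    exact pw_map2 (fun a b => -(a + b)) _ _ _ _ _ _ _ _ _ _ _ _ x
  · rw [← pw_prod hm]
    unfold rs
    refine Finset.prod_congr rfl fun x _ => ?_
    show sgc (pw a0 a1 a2 a3 a4 c x) (pw b0 b1 b2 b3 e e (x - 1)) (pw b0 b1 b2 b3 e e x) = _
    rw [pw_shift hm]
    unfold pw
    split_ifs <;> first | rfl | exact sgc_self _ _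

/-- the same, with the two states and the sign given by their values -/
theorem blk' [NeZero m] (hm : 5 ≤ m) (a0 a1 a2 a3 a4 c b0 b1 b2 b3 e : Fin 3)
    (s0 s1 s2 s3 s4 s5 t0 t1 t2 t3 t4 : Fin 3) (s : ℤ)
    (hv : ((a0 ≠ b0 ∧ a0 ≠ e) ∧ (a1 ≠ b1 ∧ a1 ≠ b0) ∧ (a2 ≠ b2 ∧ a2 ≠ b1) ∧ (a3 ≠ b3 ∧ a3 ≠ b2) ∧
      (a4 ≠ e ∧ a4 ≠ b3) ∧ c ≠ e) ∧
      (-(a0 + e) = s0 ∧ -(a1 + b0) = s1 ∧ -(a2 + b1) = s2 ∧ -(a3 + b2) = s3 ∧ -(a4 + b3) = s4 ∧
        -(c + e) = s5) ∧
      (-(a0 + b0) = t0 ∧ -(a1 + b1) = t1 ∧ -(a2 + b2) = t2 ∧ -(a3 + b3) = t3 ∧ -(a4 + e) = t4) ∧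
      sgc a0 e b0 * sgc a1 b0 b1 * sgc a2 b1 b2 * sgc a3 b2 b3 * sgc a4 b3 e = s) :
    Path (m := m) (pw s0 s1 s2 s3 s4 s5) (pw t0 t1 t2 t3 t4 s5) 1 s := by
  obtain ⟨hv, ⟨h0, h1, h2, h3, h4, h5⟩, ⟨k0, k1, k2, k3, k4⟩, hs⟩ := hv
  have h := blk hm a0 a1 a2 a3 a4 c b0 b1 b2 b3 e hv
  rwa [h0, h1, h2, h3, h4, h5, k0, k1, k2, k3, k4, hs] at h

theorem path5_straight [NeZero m] (hm : 5 ≤ m) :
    Path (m := m) (pw 1 1 0 2 2 2) (pw 1 1 0 2 2 2) 3 1 := by
  have h1 : Path (m := m) (pw 1 1 0 2 2 2) (pw 1 0 1 2 2 2) 1 1 :=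
    blk' hm 2 2 2 1 1 1 0 1 0 0 0 _ _ _ _ _ _ _ _ _ _ _ _ (by decide +kernel)
  have h2 : Path (m := m) (pw 1 0 1 2 2 2) (pw 0 1 1 2 2 2) 1 1 :=
    blk' hm 2 2 2 1 1 1 1 0 0 0 0 _ _ _ _ _ _ _ _ _ _ _ _ (by decide +kernel)
  have h3 : Path (m := m) (pw 0 1 1 2 2 2) (pw 1 1 0 2 2 2) 1 1 :=
    blk' hm 2 2 2 0 0 0 0 0 1 1 1 _ _ _ _ _ _ _ _ _ _ _ _ (by decide +kernel)
  exact (h1.append h2).append h3

theorem path5_three [NeZero m] (hm : 5 ≤ m) :
    Path (m := m) (pw 2 2 0 1 1 2) (pw 1 1 0 2 2 2) 3 (-1) := by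
  have h1 : Path (m := m) (pw 2 2 0 1 1 2) (pw 2 0 2 1 1 2) 1 1 :=
    blk' hm 1 1 1 2 2 1 0 2 0 0 0 _ _ _ _ _ _ _ _ _ _ _ _ (by decide +kernel)
  have h2 : Path (m := m) (pw 2 0 2 1 1 2) (pw 2 1 0 1 2 2) 1 (-1) :=
    blk' hm 0 2 1 0 0 0 1 0 2 2 1 _ _ _ _ _ _ _ _ _ _ _ _ (by decide +kernel)
  have h3 : Path (m := m) (pw 2 1 0 1 2 2) (pw 1 1 0 2 2 2) 1 1 :=
    blk' hm 0 0 1 0 0 0 2 2 2 1 1 _ _ _ _ _ _ _ _ _ _ _ _ (by decide +kernel)
  exact (h1.append h2).append h3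

theorem path5_four [NeZero m] (hm : 5 ≤ m) :
    Path (m := m) (pw 2 2 0 1 1 2) (pw 1 1 0 2 2 2) 4 (-1) := by
  have h1 : Path (m := m) (pw 2 2 0 1 1 2) (pw 2 2 1 1 0 2) 1 1 :=
    blk' hm 0 0 2 2 2 0 1 1 0 0 1 _ _ _ _ _ _ _ _ _ _ _ _ (by decide +kernel)
  have h2 : Path (m := m) (pw 2 2 1 1 0 2) (pw 2 0 1 2 1 2) 1 (-1) :=
    blk' hm 1 1 0 0 2 1 0 2 2 1 0 _ _ _ _ _ _ _ _ _ _ _ _ (by decide +kernel)
  have h3 : Path (m := m) (pw 2 0 1 2 1 2) (pw 2 1 0 1 2 2) 1 1 :=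
    blk' hm 0 2 2 0 0 0 1 0 1 2 1 _ _ _ _ _ _ _ _ _ _ _ _ (by decide +kernel)
  have h4 : Path (m := m) (pw 2 1 0 1 2 2) (pw 1 1 0 2 2 2) 1 1 :=
    blk' hm 0 0 1 0 0 0 2 2 2 1 1 _ _ _ _ _ _ _ _ _ _ _ _ (by decide +kernel)
  exact ((h1.append h2).append h3).append h4

theorem path5_five [NeZero m] (hm : 5 ≤ m) :
    Path (m := m) (pw 2 2 0 1 1 2) (pw 1 1 0 2 2 2) 5 (-1) := by
  have h1 : Path (m := m) (pw 2 2 0 1 1 2) (pw 2 0 2 1 1 2) 1 1 :=
    blk' hm 1 1 1 2 2 1 0 2 0 0 0 _ _ _ _ _ _ _ _ _ _ _ _ (by decide +kernel)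
  have h2 : Path (m := m) (pw 2 0 2 1 1 2) (pw 0 2 2 1 1 2) 1 1 :=
    blk' hm 1 1 1 2 2 1 2 0 0 0 0 _ _ _ _ _ _ _ _ _ _ _ _ (by decide +kernel)
  have h3 : Path (m := m) (pw 0 2 2 1 1 2) (pw 1 2 0 1 2 2) 1 (-1) :=
    blk' hm 2 1 1 0 0 0 0 0 2 2 1 _ _ _ _ _ _ _ _ _ _ _ _ (by decide +kernel)
  have h4 : Path (m := m) (pw 1 2 0 1 2 2) (pw 0 1 2 1 2 2) 1 (-1) :=
    blk' hm 2 0 1 2 1 1 1 2 0 0 0 _ _ _ _ _ _ _ _ _ _ _ _ (by decide +kernel)
  have h5 : Path (m := m) (pw 0 1 2 1 2 2) (pw 1 1 0 2 2 2) 1 (-1) :=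
    blk' hm 2 2 1 0 0 0 0 0 2 1 1 _ _ _ _ _ _ _ _ _ _ _ _ (by decide +kernel)
  exact (((h1.append h2).append h3).append h4).append h5

/-! The rows which move two neighbouring `1`s to the left -/

/-- one `0` in column `2`, two `1`s in the columns `p` and `p + 1`, everything else is `2` -/
def st (p x : ZMod m) : Fin 3 := if x = 2 then 0 else if x = p ∨ x = p + 1 then 1 else 2

theorem step_left [NeZero m] (p : ZMod m) (h1 : p - 1 ≠ 2) (h2 : p ≠ 2) (h3 : p + 1 ≠ 2) :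
    Path (m := m) (st p) (st (p - 1)) 1 1 := by
  have f1 : ¬ ((2 : ZMod m) = p ∨ (2 : ZMod m) = p + 1) := by
    rintro (h | h)
    · exact h2 h.symm
    · exact h3 h.symm
  have f2 : ¬ ((2 : ZMod m) + 1 = p ∨ (2 : ZMod m) + 1 = p + 1) := by
    rintro (h | h)
    · apply h1; rw [← h]; ring
    · exact h2 (add_right_cancel h).symm
  obtain ⟨u, hu⟩ : ∃ u : ZMod m → Fin 3, u = fun x => if x = 2 then 2 else 0 := ⟨_, rfl⟩
  obtain ⟨v, hv⟩ : ∃ v : ZMod m → Fin 3, v = fun x => if x = p ∨ x = p + 1 then 2 else 1 :=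
    ⟨_, rfl⟩
  have e1 : ∀ x, v (x - 1 + 1) = v x := fun x => by rw [sub_add_cancel]
  have key : ∀ x, (u x ≠ v (x + 1) ∧ u x ≠ v x) ∧ -(u x + v x) = st p x ∧
      -(u x + v (x + 1)) = st (p - 1) x := by
    intro x
    have g1 : (x = p - 1 ∨ x = p - 1 + 1) ↔ (x + 1 = p ∨ x + 1 = p + 1) := by
      rw [eq_sub_iff_add_eq, sub_add_cancel, add_left_inj]
    unfold st
    rw [if_congr g1 rfl rfl]
    rw [hu, hv]
    dsimp only
    by_cases x2 : x = 2
    · subst x2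
      rw [if_pos rfl, if_neg f1, if_neg f2, if_pos rfl, if_pos rfl]
      decide
    · rw [if_neg x2, if_neg x2, if_neg x2]
      split_ifs <;> decide
  refine Path.single (r := (u, fun x => v (x + 1))) ?_ ?_ ?_ ?_
  · intro x
    have := (key x).1
    exact ⟨this.1, by show u x ≠ v (x - 1 + 1); rw [e1]; exact this.2⟩
  · funext x
    show -(u x + v (x - 1 + 1)) = _
    rw [e1]; exact (key x).2.1
  · funext x
    exact (key x).2.2
  · unfold rs
    obtain ⟨a, ha⟩ : ∃ a : ZMod m → ℤ, a = fun x => if x = 2 then -1 else 1 := ⟨_, rfl⟩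
    obtain ⟨b, hb⟩ : ∃ b : ZMod m → ℤ, b = fun x => if x = p ∨ x = p + 1 then -1 else 1 :=
      ⟨_, rfl⟩
    have hab : ∀ x, sg (u x) (v x) (-(u x + v x)) * sg (u x) (v (x + 1)) (-(u x + v (x + 1))) =
        (a x * b x) * (a x * b (x + 1)) := by
      intro x
      rw [hu, hv, ha, hb]
      dsimp only
      by_cases x2 : x = 2
      · subst x2
        rw [if_pos rfl, if_neg f1, if_neg f2, if_pos rfl, if_neg f1, if_neg f2]
        decide
      · rw [if_neg x2, if_neg x2]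
        split_ifs <;> decide
    have : ∀ x : ZMod m, sg (u x) (v (x - 1 + 1)) (dn (u, fun x => v (x + 1)) x) *
        sg (u x) (v (x + 1)) (up (u, fun x => v (x + 1)) x) = (a x * b x) * (a x * b (x + 1)) := by
      intro x
      rw [← hab]
      unfold dn up
      dsimp only
      rw [e1]
    rw [Finset.prod_congr rfl fun x _ => this x]
    rw [Finset.prod_mul_distrib, Finset.prod_mul_distrib, Finset.prod_mul_distrib]
    have hs : ∏ x : ZMod m, b (x + 1) = ∏ x : ZMod m, b x :=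
      Fintype.prod_equiv (Equiv.addRight 1) _ _ (fun _ => rfl)
    have ha2 : (∏ x : ZMod m, a x) * (∏ x : ZMod m, a x) = 1 := by
      rw [← Finset.prod_mul_distrib]
      refine Finset.prod_eq_one fun x _ => ?_
      rw [ha]; dsimp only; split_ifs <;> norm_num
    have hb2 : (∏ x : ZMod m, b x) * (∏ x : ZMod m, b x) = 1 := by
      rw [← Finset.prod_mul_distrib]
      refine Finset.prod_eq_one fun x _ => ?_
      rw [hb]; dsimp only; split_ifs <;> norm_num
    rw [hs]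
    calc _ = ((∏ x : ZMod m, a x) * (∏ x : ZMod m, a x)) *
          ((∏ x : ZMod m, b x) * (∏ x : ZMod m, b x)) := by ring
      _ = 1 := by rw [ha2, hb2, one_mul]

theorem path5_left [NeZero m] (hm : 5 ≤ m) (i : ℕ) (hi : i ≤ m - 3) :
    Path (m := m) (st 0) (st (-(i : ZMod m))) i 1 := by
  induction i with
  | zero => simpa using Path.nil (st (0 : ZMod m))
  | succ i ih =>
    have h := ih (by omega)
    have key : ∀ k : ℕ, 0 < k → k < m → (k : ZMod m) ≠ 0 := by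
      intro k hk hkm h0
      rw [ZMod.natCast_eq_zero_iff] at h0
      exact absurd (Nat.le_of_dvd hk h0) (by omega)
    have h1 : (-(i : ZMod m)) - 1 ≠ 2 := by
      intro h
      apply key (i + 3) (by omega) (by omega)
      push_cast
      linear_combination -h
    have h2 : (-(i : ZMod m)) ≠ 2 := by
      intro h
      apply key (i + 2) (by omega) (by omega)
      push_cast
      linear_combination -h
    have h3 : (-(i : ZMod m)) + 1 ≠ 2 := by
      intro h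
      apply key (i + 1) (by omega) (by omega)
      push_cast
      linear_combination -h
    have h4 := h.append (step_left _ h1 h2 h3)
    rw [show -(i : ZMod m) - 1 = -((i + 1 : ℕ) : ZMod m) by push_cast; ring] at h4
    simpa using h4

theorem path5_shift [NeZero m] (hm : 5 ≤ m) :
    Path (m := m) (pw 1 1 0 2 2 2) (pw 2 2 0 1 1 2) (m - 3) 1 := by
  have h := path5_left hm (m - 3) le_rfl
  obtain ⟨⟨h01, h02, h03, h04⟩, ⟨h12, h13, h14⟩, ⟨h23, h24⟩, h34⟩ := five_all hm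
  have e3 : (-((m - 3 : ℕ) : ZMod m)) = 3 := by
    rw [Nat.cast_sub (by omega)]
    simp
  rw [e3] at h
  have s0 : st (0 : ZMod m) = pw 1 1 0 2 2 2 := by
    funext x
    unfold st pw
    rw [zero_add]
    by_cases x0 : x = 0
    · subst x0; simp [h02]
    by_cases x1 : x = 1
    · subst x1; simp [h12, h01.symm]
    by_cases x2 : x = 2
    · subst x2; simp [h02.symm, h12.symm]
    simp [x0, x1, x2]
  have s3 : st (3 : ZMod m) = pw 2 2 0 1 1 2 := by
    funext x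
    unfold st pw
    rw [show (3 : ZMod m) + 1 = 4 by norm_num]
    by_cases x0 : x = 0
    · subst x0; simp [h02, h03, h04]
    by_cases x1 : x = 1
    · subst x1; simp [h12, h13, h14, h01.symm]
    by_cases x2 : x = 2
    · subst x2; simp [h02.symm, h12.symm]
    by_cases x3 : x = 3
    · subst x3; simp [h03.symm, h13.symm, h23.symm]
    by_cases x4 : x = 4
    · subst x4; simp [h04.symm, h14.symm, h24.symm, h34.symm]
    simp [x0, x1, x2, x3, x4]
  rwa [s0, s3] at h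

theorem neg_five {n : ℕ} [NeZero m] [NeZero n] (hm : 5 ≤ m) (hn : m ≤ n) : Neg m n := by
  have key : ∀ r : ℕ, Path (m := m) (pw 2 2 0 1 1 2) (pw 1 1 0 2 2 2) r (-1) → 3 ≤ r →
      (n - m) % 3 = r - 3 → Neg m n := by
    intro r hr h3 hmod
    have h := ((path5_shift hm).append hr).append ((path5_straight hm).iter ((n - m) / 3))
    rw [show m - 3 + r + 3 * ((n - m) / 3) = n by omega, one_mul, mul_one] at h
    exact h.neg (by omega)
  have h3 : (n - m) % 3 = 0 ∨ (n - m) % 3 = 1 ∨ (n - m) % 3 = 2 := by omega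
  rcases h3 with h | h | h
  · exact key 3 (path5_three hm) (by omega) (by omega)
  · exact key 4 (path5_four hm) (by omega) (by omega)
  · exact key 5 (path5_five hm) (by omega) (by omega)

end five

end Pool.Agent.KS6_67.Kag
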