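import Pool.Agent.KS6_67.Kag.Base

/-!
# Rows of a 3-colouring of the `m × n` periodic kagome lattice
-/

set_option autoImplicit false

namespace Pool.Agent.KS6_67.Kag

variable {m n : ℕ}

/-- a row: the colours `u x` of the edges `A x — B x` and `w x` of the edges `B x — A (x + 1)` -/
abbrev RowW (m : ℕ) := (ZMod m → Fin 3) × (ZMod m → Fin 3)

/-- the row is properly coloured -/
def IsRow (r : RowW m) : Prop := ∀ x, r.1 x ≠ r.2 x ∧ r.1 x ≠ r.2 (x - 1)

/-- the colours of the vertical edges below the row -/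
def dn (r : RowW m) (x : ZMod m) : Fin 3 := -(r.1 x + r.2 (x - 1))

/-- the colours of the vertical edges above the row -/
def up (r : RowW m) (x : ZMod m) : Fin 3 := -(r.1 x + r.2 x)

/-- the rows fit together -/
def Comp (R : ZMod n → RowW m) : Prop := (∀ y, IsRow (R y)) ∧ ∀ y, up (R y) = dn (R (y + 1))

/-- the rows of a function -/
def row (f : X m n → Fin 3 → Fin 3) (y : ZMod n) : RowW m :=
  (fun x => f (x, y) 0, fun x => f (x + 1, y) 1)

/-- the function with given rows -/
def mkf (R : ZMod n → RowW m) : X m n → Fin 3 → Fin 3 :=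
  fun p => ![(R p.2).1 p.1, (R p.2).2 (p.1 - 1), dn (R p.2) p.1]

theorem third_ne : ∀ a b : Fin 3, a ≠ b → a ≠ -(a + b) ∧ b ≠ -(a + b) := by decide

theorem third_eq : ∀ a b c : Fin 3, a ≠ b → a ≠ c → b ≠ c → c = -(a + b) := by decide

theorem inj3 {k : Fin 3 → Fin 3} (h01 : k 0 ≠ k 1) (h02 : k 0 ≠ k 2) (h12 : k 1 ≠ k 2) :
    Function.Injective k := by
  intro a b h
  have h10 := h01.symm
  have h20 := h02.symm
  have h21 := h12.symm
  fin_cases a <;> fin_cases b <;> simp_all

theorem ne3 {k : Fin 3 → Fin 3} (hk : Function.Injective k) :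
    k 0 ≠ k 1 ∧ k 0 ≠ k 2 ∧ k 1 ≠ k 2 :=
  ⟨fun h => absurd (hk h) (by decide), fun h => absurd (hk h) (by decide),
    fun h => absurd (hk h) (by decide)⟩

theorem good_mkf {R : ZMod n → RowW m} (h : Comp R) : Good (mkf R) := by
  constructor
  · intro p
    have h1 := (h.1 p.2 p.1).2
    refine inj3 h1 ?_ ?_
    · exact (third_ne _ _ h1).1
    · exact (third_ne _ _ h1).2
  · intro z
    have h1 := (h.1 z.2 z.1).1
    have h2 := congrFun (h.2 z.2) z.1
    have e0 : mkf R (z + d 0) 0 = (R z.2).1 z.1 := by simp [mkf, d]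
    have e1 : mkf R (z + d 1) 1 = (R z.2).2 z.1 := by simp [mkf, d]
    have e2 : mkf R (z + d 2) 2 = -((R z.2).1 z.1 + (R z.2).2 z.1) := by
      rw [← up, h2]
      simp [mkf, d]
    refine inj3 ?_ ?_ ?_
    · show mkf R (z + d 0) 0 ≠ mkf R (z + d 1) 1
      rw [e0, e1]; exact h1
    · show mkf R (z + d 0) 0 ≠ mkf R (z + d 2) 2
      rw [e0, e2]; exact (third_ne _ _ h1).1
    · show mkf R (z + d 1) 1 ≠ mkf R (z + d 2) 2
      rw [e1, e2]; exact (third_ne _ _ h1).2

theorem dn_row {f : X m n → Fin 3 → Fin 3} (hf : Good f) (x : ZMod m) (y : ZMod n) :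
    dn (row f y) x = f (x, y) 2 := by
  obtain ⟨h1, h2, h3⟩ := ne3 (hf.1 (x, y))
  rw [third_eq _ _ _ h1 h2 h3]
  simp [dn, row]

theorem up_row {f : X m n → Fin 3 → Fin 3} (hf : Good f) (x : ZMod m) (y : ZMod n) :
    up (row f y) x = f (x, y + 1) 2 := by
  obtain ⟨h1, h2, h3⟩ := ne3 (hf.2 (x, y))
  have := third_eq _ _ _ h1 h2 h3
  simp [d] at this
  rw [this]
  simp [up, row]

theorem comp_row {f : X m n → Fin 3 → Fin 3} (hf : Good f) : Comp (row f) := by
  constructor
  · intro y x
    constructor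
    · have h := (ne3 (hf.2 (x, y))).1
      simpa [row, d] using h
    · have h := (ne3 (hf.1 (x, y))).1
      simpa [row] using h
  · intro y
    funext x
    rw [up_row hf, dn_row hf]

theorem mkf_row {f : X m n → Fin 3 → Fin 3} (hf : Good f) : mkf (row f) = f := by
  funext p t
  fin_cases t
  · rfl
  · simp [mkf, row]
  · show dn (row f p.2) p.1 = f p 2
    rw [dn_row hf]

/-- `b` arises from `a` by an interchange of `α` and `β`, or by no change -/
def Cl (α β a b : Fin 3) : Prop := b = a ∨ (a = α ∧ b = β) ∨ (a = β ∧ b = α)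

instance (α β a b : Fin 3) : Decidable (Cl α β a b) := by unfold Cl; infer_instance

theorem close_mkf {R R' : ZMod n → RowW m} {α β : Fin 3} (hab : α ≠ β)
    (h1 : ∀ y x, Cl α β ((R y).1 x) ((R' y).1 x)) (h2 : ∀ y x, Cl α β ((R y).2 x) ((R' y).2 x))
    (h3 : ∀ y x, Cl α β (dn (R y) x) (dn (R' y) x)) : Close (mkf R) (mkf R') := by
  refine ⟨α, β, hab, fun p t => ?_⟩
  fin_cases t
  · exact h1 _ _
  · exact h2 _ _
  · exact h3 _ _

/-! ### The sign of a row, paths of rows -/

variable [NeZero m]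

/-- the product of the local signs at the vertices of a row -/
def rs (r : RowW m) : ℤ :=
  ∏ x : ZMod m, (sg (r.1 x) (r.2 (x - 1)) (dn r x) * sg (r.1 x) (r.2 x) (up r x))

theorem eps_mkf [NeZero n] {R : ZMod n → RowW m} (h : Comp R) : eps (mkf R) = ∏ y : ZMod n, rs (R y) := by
  unfold eps
  rw [← Finset.prod_mul_distrib]
  rw [Fintype.prod_prod_type_right]
  refine Finset.prod_congr rfl fun y _ => ?_
  unfold rs
  refine Finset.prod_congr rfl fun x _ => ?_
  have e0 : mkf R ((x, y) + d 0) 0 = (R y).1 x := by simp [mkf, d]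
  have e1 : mkf R ((x, y) + d 1) 1 = (R y).2 x := by simp [mkf, d]
  have e2 : mkf R ((x, y) + d 2) 2 = up (R y) x := by
    rw [h.2 y]
    simp [mkf, d]
  rw [e0, e1, e2]
  rfl

/-- a sequence of rows which fit together, from one state to another one, with its length and its
sign -/
inductive Path : (ZMod m → Fin 3) → (ZMod m → Fin 3) → ℕ → ℤ → Prop
  | nil (c : ZMod m → Fin 3) : Path c c 0 1
  | cons (r : RowW m) (c' : ZMod m → Fin 3) (k : ℕ) (s : ℤ) (hr : IsRow r)
      (h : Path (up r) c' k s) : Path (dn r) c' (k + 1) (rs r * s)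

theorem Path.append {c c' c'' : ZMod m → Fin 3} {k l : ℕ} {s t : ℤ} (h : Path c c' k s)
    (h' : Path c' c'' l t) : Path c c'' (k + l) (s * t) := by
  induction h with
  | nil c => simpa using h'
  | cons r c' k s hr h ih =>
    have := Path.cons r _ _ _ hr (ih h')
    rw [show k + 1 + l = k + l + 1 by omega, mul_assoc]
    exact this

theorem Path.single {r : RowW m} {c c' : ZMod m → Fin 3} {s : ℤ} (hr : IsRow r) (h1 : dn r = c)
    (h2 : up r = c') (h3 : rs r = s) : Path c c' 1 s := by
  subst h1 h2 h3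
  have := Path.cons r _ _ _ hr (Path.nil (up r))
  simpa using this

theorem Path.iter {c : ZMod m → Fin 3} {k : ℕ} (h : Path c c k 1) (j : ℕ) : Path c c (k * j) 1 := by
  induction j with
  | zero => simpa using Path.nil c
  | succ j ih =>
    have := ih.append h
    rw [mul_one] at this
    rwa [show k * (j + 1) = k * j + k by ring]

theorem Path.realize {c c' : ZMod m → Fin 3} {k : ℕ} {s : ℤ} (h : Path c c' k s) :
    ∃ (R : ℕ → RowW m) (S : ℕ → ZMod m → Fin 3), S 0 = c ∧ S k = c' ∧
      (∀ i < k, IsRow (R i) ∧ dn (R i) = S i ∧ up (R i) = S (i + 1)) ∧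
      ∏ i ∈ Finset.range k, rs (R i) = s := by
  induction h with
  | nil c => exact ⟨fun _ => (fun _ => 0, fun _ => 0), fun _ => c, rfl, rfl,
      fun i hi => absurd hi (by omega), by simp⟩
  | cons r c' k s hr h ih =>
    obtain ⟨R, S, h0, hk, hR, hs⟩ := ih
    refine ⟨fun i => match i with | 0 => r | i + 1 => R i,
      fun i => match i with | 0 => dn r | i + 1 => S i, rfl, hk, ?_, ?_⟩
    · intro i hi
      cases i with
      | zero => exact ⟨hr, rfl, h0.symm⟩
      | succ i => exact hR i (by omega)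
    · rw [Finset.prod_range_succ']
      rw [hs, mul_comm]

/-- a closed path of length `n` of sign `-1` gives a good function of sign `-1` -/
theorem Path.neg [NeZero n] {c : ZMod m → Fin 3} (hn : 2 ≤ n) (h : Path c c n (-1)) : Neg m n := by
  obtain ⟨R, S, h0, hk, hR, hs⟩ := h.realize
  have hcomp : Comp (fun y : ZMod n => R y.val) := by
    constructor
    · intro y
      exact (hR _ y.val_lt).1
    · intro y
      show up (R y.val) = dn (R (y + 1).val)
      rw [(hR _ y.val_lt).2.2, (hR _ (y + 1).val_lt).2.1]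
      have h1 : Fact (1 < n) := ⟨hn⟩
      by_cases hy : y.val + 1 < n
      · rw [ZMod.val_add_of_lt (by rw [ZMod.val_one]; exact hy), ZMod.val_one]
      · have hy' : y.val + 1 = n := by have := y.val_lt; omega
        have : (y + 1).val = 0 := by
          rw [ZMod.val_add, ZMod.val_one, hy', Nat.mod_self]
        rw [this, h0, hy', hk]
  refine ⟨_, good_mkf hcomp, ?_⟩
  rw [eps_mkf hcomp]
  have : ∏ y : ZMod n, rs (R y.val) = ∏ i ∈ Finset.range n, rs (R i) := by
    obtain ⟨k, rfl⟩ : ∃ k, n = k + 1 := ⟨n - 1, by omega⟩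
    rw [Finset.prod_range]
    rfl
  rw [this, hs]

end Pool.Agent.KS6_67.Kag
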